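import Pool.Agent.Mg.Fc00610.G32f75a

/-! Idempotent relations with a given set of reflexive points: definitions and statements. -/

set_option autoImplicit false
set_option linter.unusedSectionVars false

open Finset
open scoped Classical

noncomputable section
namespace Pool.Agent.MP_c00610_co.Tr

section defs
variable {α : Type} [Fintype α]

/-- quasi-orders on `T` -/
def QO (T : Finset α) : Finset (α → α → Prop) := univ.filter fun Q =>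
  (∀ a b, Q a b → a ∈ T ∧ b ∈ T) ∧ (∀ a ∈ T, Q a a) ∧ ∀ a b c, Q a b → Q b c → Q a c

/-- places for a new point: a down-set below a disjoint up-set -/
def Pr (T : Finset α) (Q : α → α → Prop) : Finset (Finset α × Finset α) := univ.filter fun p =>
  p.1 ⊆ T ∧ p.2 ⊆ T ∧ Disjoint p.1 p.2 ∧ (∀ a b, Q a b → b ∈ p.1 → a ∈ p.1) ∧
    (∀ a b, Q a b → a ∈ p.2 → b ∈ p.2) ∧ ∀ a ∈ p.1, ∀ b ∈ p.2, Q a b

def nn (T : Finset α) (Q : α → α → Prop) : ℕ := (Pr T Q).card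

def Sm (T : Finset α) (m : ℕ) : ℕ := ∑ Q ∈ QO T, nn T Q ^ m

def Anti (Q : α → α → Prop) : Prop := ∀ a b, Q a b → Q b a → a = b

/-- `Z` is a complete two-level order with top level `Z ∩ U` -/
def Spl (Q : α → α → Prop) (U Z : Finset α) : Prop :=
  ∀ a ∈ Z, ∀ b ∈ Z, a ≠ b → (Q a b ↔ a ∉ U ∧ b ∈ U)

/-- `Zs T Q ∅` is the family of antichains -/
def Zs (T : Finset α) (Q : α → α → Prop) (U : Finset α) : Finset (Finset α) :=
  T.powerset.filter fun Z => Spl Q U Z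

def Gd (T : Finset α) (Q : α → α → Prop) : Finset (Finset α) :=
  T.powerset.filter fun Z => ∃ U, Spl Q U Z

def del (v : α) (Q : α → α → Prop) : α → α → Prop := fun a b => Q a b ∧ a ≠ v ∧ b ≠ v

def up (Q : α → α → Prop) (v : α) : Finset α := univ.filter fun z => Q v z ∧ z ≠ v

def dn (Q : α → α → Prop) (v : α) : Finset α := univ.filter fun z => Q z v ∧ z ≠ v

/-- the antichain -/
def dg (T : Finset α) : α → α → Prop := fun a b => a = b ∧ a ∈ T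

def bot (T : Finset α) (Q : α → α → Prop) (v : α) : Finset (Finset α) :=
  (Zs (T.erase v) (del v Q) (up Q v)).filter fun Z => Disjoint Z (dn Q v)

def top (T : Finset α) (Q : α → α → Prop) (v : α) : Finset (Finset α) :=
  (Zs (T.erase v) (del v Q) (T.erase v \ dn Q v)).filter fun Z => Disjoint Z (up Q v)

theorem mem_QO {T : Finset α} {Q : α → α → Prop} : Q ∈ QO T ↔
    (∀ a b, Q a b → a ∈ T ∧ b ∈ T) ∧ (∀ a ∈ T, Q a a) ∧ ∀ a b c, Q a b → Q b c → Q a c := by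
  simp [QO]

theorem mem_Pr {T : Finset α} {Q : α → α → Prop} {p : Finset α × Finset α} : p ∈ Pr T Q ↔
    p.1 ⊆ T ∧ p.2 ⊆ T ∧ Disjoint p.1 p.2 ∧ (∀ a b, Q a b → b ∈ p.1 → a ∈ p.1) ∧
      (∀ a b, Q a b → a ∈ p.2 → b ∈ p.2) ∧ ∀ a ∈ p.1, ∀ b ∈ p.2, Q a b := by
  simp [Pr]

theorem mem_Zs {T U Z : Finset α} {Q : α → α → Prop} : Z ∈ Zs T Q U ↔ Z ⊆ T ∧ Spl Q U Z := by
  simp [Zs]

theorem mem_Gd {T Z : Finset α} {Q : α → α → Prop} : Z ∈ Gd T Q ↔ Z ⊆ T ∧ ∃ U, Spl Q U Z := by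
  simp [Gd]

theorem mem_up {Q : α → α → Prop} {v z : α} : z ∈ up Q v ↔ Q v z ∧ z ≠ v := by simp [up]

theorem mem_dn {Q : α → α → Prop} {v z : α} : z ∈ dn Q v ↔ Q z v ∧ z ≠ v := by simp [dn]

theorem Spl.mono {Q : α → α → Prop} {U Z Y : Finset α} (h : Spl Q U Z) (hY : Y ⊆ Z) : Spl Q U Y :=
  fun a ha b hb => h a (hY ha) b (hY hb)

theorem spl_del {Q : α → α → Prop} {U Z : Finset α} {v : α} (hv : v ∉ Z) :
    Spl (del v Q) U Z ↔ Spl Q U Z := by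
  refine forall₂_congr fun a ha => forall₃_congr fun b hb _ => iff_congr ?_ Iff.rfl
  exact ⟨fun h => h.1, fun h => ⟨h, fun e => hv (e ▸ ha), fun e => hv (e ▸ hb)⟩⟩

theorem del_mem {T : Finset α} {Q : α → α → Prop} (h : Q ∈ QO T) (v : α) :
    del v Q ∈ QO (T.erase v) := by
  rw [mem_QO] at h ⊢
  refine ⟨fun a b e => ?_, fun a ha => ?_, fun a b c e f => ⟨h.2.2 a b c e.1 f.1, e.2.1, f.2.2⟩⟩
  · exact ⟨mem_erase.2 ⟨e.2.1, (h.1 a b e.1).1⟩, mem_erase.2 ⟨e.2.2, (h.1 a b e.1).2⟩⟩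
  · exact ⟨h.2.1 a (mem_of_mem_erase ha), ne_of_mem_erase ha, ne_of_mem_erase ha⟩

theorem Anti.del {Q : α → α → Prop} (h : Anti Q) (v : α) : Anti (del v Q) :=
  fun a b e f => h a b e.1 f.1

theorem dg_mem (T : Finset α) : dg T ∈ QO T :=
  mem_QO.2 ⟨fun _ _ h => ⟨h.2, h.1 ▸ h.2⟩, fun _ h => ⟨rfl, h⟩,
    fun _ _ _ h g => ⟨h.1.trans g.1, h.2⟩⟩

end defs

def N0 (t : ℕ) : ℝ := 2 ^ (t + 1) - 1

/-! ### Statements -/

def SBij : Prop := ∀ (α : Type) [Fintype α] (T V : Finset α), T ⊆ V →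
  ((idemOn V).filter fun R => ∀ x, R x x ↔ x ∈ T).card = Sm T (V \ T).card

def SNN : Prop := ∀ (α : Type) [Fintype α] (T : Finset α), ∀ Q ∈ QO T, Anti Q →
  nn T Q + 1 = (Gd T Q).card + (Zs T Q ∅).card

def STri : Prop := ∀ (α : Type) (F : Finset (Finset α)) (a b c : α),
  (∀ Z ∈ F, ∀ Y, Y ⊆ Z → Y ∈ F) → a ≠ b → a ≠ c → b ≠ c → ({a, b, c} : Finset α) ∉ F →
  12 * F.card ≤ 7 * ((F.filter fun Z => a ∉ Z).card + (F.filter fun Z => b ∉ Z).card +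
    (F.filter fun Z => c ∉ Z).card)

def SPick : Prop := ∀ (α : Type) [Fintype α] (T : Finset α), ∀ Q ∈ QO T, Anti Q →
  (¬ ∃ U, Spl Q U T) → ∃ v ∈ T, 10 * nn T Q ≤ 19 * nn (T.erase v) (del v Q)

def SDel : Prop := ∀ (α : Type) [Fintype α] (T : Finset α), ∀ Q ∈ QO T, Anti Q → ∀ v ∈ T,
  nn T Q ≤ nn (T.erase v) (del v Q) + (bot T Q v).card + (top T Q v).card

def SClu : Prop := ∀ (α : Type) [Fintype α] (T : Finset α) (Q : α → α → Prop) (s : ℕ),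
  (T.powerset.filter fun U => 2 ^ T.card ≤ 2 ^ s * (Zs T Q U).card).card ≤
    2 * (small α (2 * s + 1)).card

def SExt : Prop := ∀ (α : Type) [Fintype α] (T : Finset α) (m k s : ℕ), 1 ≤ m →
  4 * m * 2 ^ k ≤ 2 ^ s → ∀ v ∈ T, ∀ P ∈ QO (T.erase v),
  ∑ Q ∈ (QO T).filter (fun Q => Anti Q ∧ del v Q = P ∧ 10 * nn T Q ≤ 19 * nn (T.erase v) P ∧
      2 ^ T.card < 2 ^ k * nn T Q), (nn T Q : ℝ) ^ m ≤
    (3 * 2 ^ T.card + 4 * ((small α (2 * s + 1)).card : ℝ) ^ 2 * (19 / 10) ^ m) *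
      (nn (T.erase v) P : ℝ) ^ m

def SEq : Prop := ∀ (α : Type) [Fintype α] (T : Finset α) (m : ℕ),
  ∑ Q ∈ (QO T).filter (fun Q => ¬ Anti Q), nn T Q ^ m ≤ T.card * ∑ v ∈ T, Sm (T.erase v) m

def SDg : Prop := ∀ (α : Type) [Fintype α] (T : Finset α), (nn T (dg T) : ℝ) = N0 T.card

def SCB : Prop := ∀ (α : Type) [Fintype α] (T : Finset α) (m s : ℕ), 1 ≤ m → 4 * m ≤ 2 ^ s →
  ∑ Q ∈ (QO T).filter (fun Q => Q ≠ dg T ∧ ∃ U, Spl Q U T), (nn T Q : ℝ) ^ m ≤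
    (2 * ((small α (2 * s + 1)).card : ℝ) * (6 / 7) ^ m + 3 * 2 ^ T.card / 2 ^ m) * N0 T.card ^ m

def SIb : Prop := ∃ C : ℝ, 0 ≤ C ∧ ∀ t : ℕ, (I (2 * t) : ℝ) ≤ C * 2 ^ (t * t + 4 * t)

def SGlob : Prop := ∃ C : ℝ, 0 ≤ C ∧ ∀ (α : Type) [Fintype α] (T : Finset α) (m k : ℕ),
  2 * T.card ≤ Fintype.card α → T.card ≤ 4000 * k → 1 ≤ k → T.card + 16000 ≤ m →
  ∑ Q ∈ (QO T).filter (fun Q => 2 ^ k * nn T Q ≤ 2 ^ T.card), (nn T Q : ℝ) ^ m ≤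
    C * 2 ^ T.card / 2 ^ m * N0 T.card ^ m

def SRec : Prop := ∃ C : ℝ, 0 ≤ C ∧ ∀ (α : Type) [Fintype α] (T : Finset α) (m k s : ℕ),
  2 * T.card ≤ Fintype.card α → T.card ≤ 4000 * k → 1 ≤ k → T.card + 16000 ≤ m →
  4 * m * 2 ^ k ≤ 2 ^ s → (Sm T m : ℝ) ≤
    (1 + 2 * ((small α (2 * s + 1)).card : ℝ) * (6 / 7) ^ m + C * 2 ^ T.card / 2 ^ m) *
      N0 T.card ^ m + (4 * 2 ^ T.card + 4 * ((small α (2 * s + 1)).card : ℝ) ^ 2 * (19 / 10) ^ m) *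
      ∑ v ∈ T, (Sm (T.erase v) m : ℝ)

/-- choice of the parameters -/
def SNum : Prop := ∀ ε : ℝ, 0 < ε → ∃ m₀ : ℕ, ∀ m, m₀ ≤ m → ∃ s : ℕ,
  4 * m * 2 ^ (m / 4000 + 1) ≤ 2 ^ s ∧ ∀ (α : Type) [Fintype α], Fintype.card α ≤ 2 * m →
    (m + 1 : ℝ) * ((small α (2 * s + 1)).card : ℝ) ^ 2 * (19 / 20) ^ m ≤ ε

def SUp : Prop := ∀ ε : ℝ, 0 < ε → ∃ η : ℝ, 0 < η ∧ ∃ m₀ : ℕ, ∀ (α : Type) [Fintype α]
  (T : Finset α) (m : ℕ), Fintype.card α = T.card + m → m₀ ≤ m →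
  ((T.card : ℝ) + 1) * 2 ^ T.card ≤ η * 2 ^ m → (Sm T m : ℝ) ≤ (1 + ε) * N0 T.card ^ m

def SLow : Prop := ∀ (α : Type) [Fintype α] (T : Finset α) (m : ℕ),
  (1 + T.card * (2 ^ T.card / 2 - 1) / 2 ^ m) * N0 T.card ^ m ≤ (Sm T m : ℝ)

/-- the count by the trace -/
def SCnt : Prop := ∀ n t : ℕ, Nat.card {A : Matrix (Fin n) (Fin n) Bool //
    (∀ i j, A i j = Finset.univ.sup fun k => min (A i k) (A k j)) ∧
      (Finset.univ.filter fun i => A i i = true).card = t} =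
  ∑ T ∈ powersetCard t (univ : Finset (Fin n)), Sm T (n - t)

def SFin : Prop := ∀ t : ℕ → ℕ, (∀ n, t n ≤ n) →
  (Filter.Tendsto (fun n : ℕ => ((∑ T ∈ powersetCard (t n) (univ : Finset (Fin n)),
      Sm T (n - t n) : ℕ) : ℝ) / (n.choose (t n) * (2 ^ (t n + 1) - 1) ^ (n - t n)))
      Filter.atTop (nhds 1) ↔
    Filter.Tendsto (fun n : ℕ => (t n : ℝ) * 4 ^ t n / 2 ^ n) Filter.atTop (nhds 0))

end Pool.Agent.MP_c00610_co.Tr
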