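import Pool.Agent.Mg.Fc00610.G91bcae
import Pool.Agent.MP_c00610_co.Tr.St

/-! Idempotent relations with a given number of reflexive points: the sharp threshold. -/

set_option autoImplicit false
set_option linter.unusedSectionVars false

open Finset
open scoped Classical

noncomputable section
namespace Pool.Agent.MP_c00610_co.Tr

section Bij


section
variable {α : Type} [Fintype α]

theorem key_Bij {R : α → α → Prop} (h : Idem R) {x y : α} (e : R x y) :
    ∃ c, R c c ∧ R x c ∧ R c y := by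
  have tr : ∀ {a b c}, R a b → R b c → R a c := fun e f => (h _ _).2 ⟨_, e, f⟩
  obtain ⟨c0, hc0⟩ := (h x y).1 e
  obtain ⟨c, hc, hmin⟩ := exists_min_image (univ.filter fun c => R x c ∧ R c y)
    (fun c => (univ.filter fun z => R x z ∧ R z c).card) ⟨c0, by simpa using hc0⟩
  simp only [mem_filter, mem_univ, true_and] at hc hmin
  obtain ⟨c2, h1, h2⟩ := (h x c).1 hc.1
  have h3 := eq_of_subset_of_card_le (s := univ.filter fun z => R x z ∧ R z c2)
    (t := univ.filter fun z => R x z ∧ R z c) (fun z hz => by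
      simp only [mem_filter, mem_univ, true_and] at hz ⊢
      exact ⟨hz.1, tr hz.2 h2⟩) (hmin c2 ⟨h1, tr h2 hc.2⟩)
  have h4 : c2 ∈ univ.filter fun z => R x z ∧ R z c2 := by rw [h3]; simp [h1, h2]
  exact ⟨c2, (mem_filter.1 h4).2.2, h1, tr h2 hc.2⟩

/-- restriction to `T` -/
def res_Bij (T : Finset α) (R : α → α → Prop) : α → α → Prop :=
  fun a b => R a b ∧ a ∈ T ∧ b ∈ T

/-- the places of the points outside `T` -/
def pl_Bij (T V : Finset α) (R : α → α → Prop) (x : α) : Finset α × Finset α :=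
  if x ∈ V \ T then (T.filter fun c => R c x, T.filter fun c => R x c) else (∅, ∅)

theorem mem_Bij {T V : Finset α} {R : α → α → Prop} :
    R ∈ (idemOn V).filter (fun R => ∀ x, R x x ↔ x ∈ T) ↔
      Idem R ∧ (∀ a b, R a b → a ∈ V ∧ b ∈ V) ∧ ∀ x, R x x ↔ x ∈ T := by
  simp [idemOn, and_assoc]

theorem inj_Bij {T V : Finset α} {R R' : α → α → Prop} (h : Idem R)
    (hV : ∀ a b, R a b → a ∈ V ∧ b ∈ V) (hT : ∀ x, R x x ↔ x ∈ T) (h' : Idem R')
    (e1 : res_Bij T R = res_Bij T R') (e2 : pl_Bij T V R = pl_Bij T V R') {x y : α}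
    (e : R x y) : R' x y := by
  obtain ⟨c, h1, h2, h3⟩ := key_Bij h e
  have hc := (hT c).1 h1
  have hQ : ∀ a b, R a b → a ∈ T → b ∈ T → R' a b := fun a b e ha hb => by
    have : res_Bij T R a b := ⟨e, ha, hb⟩
    rw [e1] at this
    exact this.1
  refine (h' x y).2 ⟨c, ?_, ?_⟩
  · by_cases hx : x ∈ T
    · exact hQ _ _ h2 hx hc
    · have h4 := congrArg (fun F => c ∈ (F x).2) e2
      simpa [pl_Bij, hx, (hV _ _ h2).1, hc, h2] using h4
  · by_cases hy : y ∈ T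
    · exact hQ _ _ h3 hc hy
    · have h4 := congrArg (fun F => c ∈ (F y).1) e2
      simpa [pl_Bij, hy, (hV _ _ h3).2, hc, h3] using h4

theorem surj_Bij {T V : Finset α} (hTV : T ⊆ V) {Q : α → α → Prop} (hQ : Q ∈ QO T)
    {F : α → Finset α × Finset α} (hF : ∀ x, F x ∈ Pr T Q) (h0 : ∀ x ∉ V \ T, F x = (∅, ∅)) :
    ∃ R, (Idem R ∧ (∀ a b, R a b → a ∈ V ∧ b ∈ V) ∧ ∀ x, R x x ↔ x ∈ T) ∧ res_Bij T R = Q ∧
      pl_Bij T V R = F := by
  obtain ⟨q1, q2, q3⟩ := mem_QO.1 hQ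
  simp only [mem_Pr] at hF
  have hT : ∀ x ∈ T, F x = (∅, ∅) := fun x hx => h0 x (by simp [hx])
  let d : α → α → Prop := fun c y => Q c y ∨ c ∈ (F y).1
  let u : α → α → Prop := fun x c => Q x c ∨ c ∈ (F x).2
  have d1 : ∀ {a b y}, Q a b → d b y → d a y := fun e f =>
    f.imp (q3 _ _ _ e) ((hF _).2.2.2.1 _ _ e)
  have u1 : ∀ {x a b}, u x a → Q a b → u x b := fun f e =>
    f.imp (fun f => q3 _ _ _ f e) ((hF _).2.2.2.2.1 _ _ e)
  have d2 : ∀ {c y}, y ∈ T → d c y → Q c y := fun hy f =>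
    f.resolve_right (by simp [hT _ hy])
  have u2 : ∀ {x c}, x ∈ T → u x c → Q x c := fun hx f =>
    f.resolve_right (by simp [hT _ hx])
  have uT : ∀ {x c}, u x c → c ∈ T := fun f => f.elim (fun f => (q1 _ _ f).2) fun f => (hF _).2.1 f
  have cr : ∀ {c y c'}, d c y → u y c' → Q c c' := fun {c y c'} e f => by
    by_cases hy : y ∈ T
    · exact q3 _ _ _ (d2 hy e) (u2 hy f)
    · exact (hF y).2.2.2.2.2 _ (e.resolve_left fun e => hy (q1 _ _ e).2) _
        (f.resolve_left fun f => hy (q1 _ _ f).1)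
  have r1 : ∀ {c y}, c ∈ T → ((∃ z, u c z ∧ d z y) ↔ d c y) := fun hc =>
    ⟨fun ⟨_, e, f⟩ => d1 (u2 hc e) f, fun f => ⟨_, Or.inl (q2 _ hc), f⟩⟩
  have r2 : ∀ {x c}, c ∈ T → ((∃ z, u x z ∧ d z c) ↔ u x c) := fun hc =>
    ⟨fun ⟨_, e, f⟩ => u1 e (d2 hc f), fun f => ⟨_, f, Or.inl (q2 _ hc)⟩⟩
  refine ⟨fun x y => ∃ z, u x z ∧ d z y, ⟨fun x y => ⟨fun ⟨z, e, f⟩ =>
    ⟨z, (r2 (uT e)).2 e, (r1 (uT e)).2 f⟩, fun ⟨_, ⟨c, e1, e2⟩, ⟨c', e3, e4⟩⟩ =>
    ⟨c, e1, d1 (cr e2 e3) e4⟩⟩, fun a b ⟨z, e, f⟩ => ⟨?_, ?_⟩, fun x => ⟨fun ⟨z, e, f⟩ => ?_,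
    fun hx => ⟨x, Or.inl (q2 x hx), Or.inl (q2 x hx)⟩⟩⟩, ?_, ?_⟩
  · refine e.elim (fun e => hTV (q1 _ _ e).1) fun e => by_contra fun h => ?_
    simp [h0 a (by simp [h])] at e
  · refine f.elim (fun e => hTV (q1 _ _ e).2) fun e => by_contra fun h => ?_
    simp [h0 b (by simp [h])] at e
  · by_contra hx
    exact disjoint_left.1 (hF x).2.2.1 (f.resolve_left fun e => hx (q1 _ _ e).2)
      (e.resolve_left fun e => hx (q1 _ _ e).1)
  · funext a b
    exact propext ⟨fun ⟨e, ha, hb⟩ => d2 hb ((r1 ha).1 e),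
      fun e => ⟨(r1 (q1 _ _ e).1).2 (Or.inl e), q1 _ _ e⟩⟩
  · funext x
    unfold pl_Bij
    split_ifs with hx
    · have hx' := (mem_sdiff.1 hx).2
      refine Prod.ext (Finset.ext fun c => ?_) (Finset.ext fun c => ?_)
      · simp only [mem_filter]
        exact ⟨fun ⟨hc, e⟩ => ((r1 hc).1 e).resolve_left
          fun e => hx' (q1 _ _ e).2, fun e => ⟨(hF x).1 e, (r1 ((hF x).1 e)).2 (Or.inr e)⟩⟩
      · simp only [mem_filter]
        exact ⟨fun ⟨hc, e⟩ => ((r2 hc).1 e).resolve_left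
          fun e => hx' (q1 _ _ e).1, fun e => ⟨(hF x).2.1 e, (r2 ((hF x).2.1 e)).2 (Or.inr e)⟩⟩
    · exact (h0 x hx).symm

end

theorem sBij : SBij := by
  intro α _ T V hTV
  rw [card_eq_sum_card_fiberwise (f := res_Bij T) (t := QO T) fun R hR => by
    obtain ⟨h, -, hT⟩ := mem_Bij.1 hR
    exact mem_QO.2 ⟨fun a b e => e.2, fun a ha => ⟨(hT a).2 ha, ha, ha⟩,
      fun a b c e f => ⟨(h _ _).2 ⟨_, e.1, f.1⟩, e.2.1, f.2.2⟩⟩]
  refine sum_congr rfl fun Q hQ => ?_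
  have hc : (Fintype.piFinset fun x => if x ∈ V \ T then Pr T Q else {(∅, ∅)}).card =
      nn T Q ^ (V \ T).card := by
    rw [Fintype.card_piFinset]
    simp only [apply_ite card, card_singleton]
    rw [prod_ite_mem, univ_inter, prod_const, nn]
  rw [← hc]
  refine card_bij (fun R _ => pl_Bij T V R) (fun R hR => ?_) (fun R hR R' hR' e => ?_)
    fun F hF => ?_
  · obtain ⟨hR1, hR2⟩ := mem_filter.1 hR
    obtain ⟨h, -, hT⟩ := mem_Bij.1 hR1
    rw [← hR2]
    have tr : ∀ {a b c}, R a b → R b c → R a c := fun e f => (h _ _).2 ⟨_, e, f⟩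
    refine Fintype.mem_piFinset.2 fun x => ?_
    unfold pl_Bij
    split_ifs with hx
    · refine mem_Pr.2 ⟨filter_subset _ _, filter_subset _ _, disjoint_left.2 fun c e f =>
        (mem_sdiff.1 hx).2 ((hT x).1 (tr (mem_filter.1 f).2 (mem_filter.1 e).2)),
        fun a b e f => mem_filter.2 ⟨e.2.1, tr e.1 (mem_filter.1 f).2⟩,
        fun a b e f => mem_filter.2 ⟨e.2.2, tr (mem_filter.1 f).2 e.1⟩, fun a e b f =>
        ⟨tr (mem_filter.1 e).2 (mem_filter.1 f).2, (mem_filter.1 e).1, (mem_filter.1 f).1⟩⟩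
    · exact mem_singleton_self _
  · obtain ⟨hR1, e1⟩ := mem_filter.1 hR
    obtain ⟨hR2, e2⟩ := mem_filter.1 hR'
    obtain ⟨h, hV, hT⟩ := mem_Bij.1 hR1
    obtain ⟨h', hV', hT'⟩ := mem_Bij.1 hR2
    funext x y
    exact propext ⟨inj_Bij h hV hT h' (e1.trans e2.symm) e,
      inj_Bij h' hV' hT' h (e2.trans e1.symm) e.symm⟩
  · rw [Fintype.mem_piFinset] at hF
    obtain ⟨R, h1, h2, h3⟩ := surj_Bij hTV hQ (F := F) (fun x => by
      have := hF x
      split_ifs at this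
      · exact this
      · rw [mem_singleton.1 this]; simp [mem_Pr]) fun x hx => by
      have := hF x
      rwa [if_neg hx, mem_singleton] at this
    exact ⟨R, mem_filter.2 ⟨mem_Bij.2 h1, h2⟩, h3⟩

end Bij

section NN


section aux
variable {α : Type} [Fintype α] {T : Finset α} {Q : α → α → Prop}

/-- maximal elements -/
def mx_NN (Q : α → α → Prop) (D : Finset α) : Finset α := D.filter fun a => ∀ b ∈ D, Q a b → b = a

/-- generated down-set -/
def cl_NN (T : Finset α) (Q : α → α → Prop) (X : Finset α) : Finset α :=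
  T.filter fun a => ∃ x ∈ X, Q a x

/-- pairs of levels -/
def Ap_NN (T : Finset α) (Q : α → α → Prop) : Finset (Finset α × Finset α) := univ.filter fun p =>
  p.1 ⊆ T ∧ p.2 ⊆ T ∧ Disjoint p.1 p.2 ∧ Spl Q p.2 (p.1 ∪ p.2)

theorem mem_Ap_NN {p : Finset α × Finset α} : p ∈ Ap_NN T Q ↔
    p.1 ⊆ T ∧ p.2 ⊆ T ∧ Disjoint p.1 p.2 ∧ Spl Q p.2 (p.1 ∪ p.2) := by
  simp only [Ap_NN, mem_filter, mem_univ, true_and]

theorem flip_NN (h : Q ∈ QO T) : flip Q ∈ QO T :=
  mem_QO.2 ⟨fun a b e => ((mem_QO.1 h).1 b a e).symm, (mem_QO.1 h).2.1,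
    fun a b c e f => (mem_QO.1 h).2.2 c b a f e⟩

theorem cl_mx_NN (h : Q ∈ QO T) (hA : Anti Q) {D : Finset α} (hD : D ⊆ T)
    (hc : ∀ a b, Q a b → b ∈ D → a ∈ D) : cl_NN T Q (mx_NN Q D) = D := by
  obtain ⟨-, h2, h3⟩ := mem_QO.1 h
  refine Subset.antisymm (fun a ha => ?_) fun a ha => ?_
  · obtain ⟨-, x, hx, e⟩ := mem_filter.1 ha
    exact hc a x e (mem_filter.1 hx).1
  · obtain ⟨x, hx, hm⟩ := exists_max_image (D.filter (Q a)) (fun x => (T.filter (Q · x)).card)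
      ⟨a, mem_filter.2 ⟨ha, h2 a (hD ha)⟩⟩
    obtain ⟨x1, x2⟩ := mem_filter.1 hx
    refine mem_filter.2 ⟨hD ha, x, mem_filter.2 ⟨x1, fun b hb e => ?_⟩, x2⟩
    have k := eq_of_subset_of_card_le (s := T.filter (Q · x)) (t := T.filter (Q · b))
      (fun z hz => mem_filter.2 ⟨(mem_filter.1 hz).1, h3 z x b (mem_filter.1 hz).2 e⟩)
      (hm b (mem_filter.2 ⟨hb, h3 a x b x2 e⟩))
    have k' : b ∈ T.filter (Q · x) := k ▸ mem_filter.2 ⟨hD hb, h2 b (hD hb)⟩
    exact hA b x (mem_filter.1 k').2 e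

theorem mx_cl_NN (h : Q ∈ QO T) (hA : Anti Q) {X : Finset α} (hX : X ⊆ T)
    (hc : ∀ a ∈ X, ∀ b ∈ X, Q a b → a = b) : mx_NN Q (cl_NN T Q X) = X := by
  obtain ⟨-, h2, h3⟩ := mem_QO.1 h
  have hs : ∀ x ∈ X, x ∈ cl_NN T Q X := fun x hx => mem_filter.2 ⟨hX hx, x, hx, h2 x (hX hx)⟩
  refine Subset.antisymm (fun a ha => ?_) fun a ha => mem_filter.2 ⟨hs a ha, fun b hb e => ?_⟩
  · obtain ⟨a1, a2⟩ := mem_filter.1 ha
    obtain ⟨-, x, hx, e⟩ := mem_filter.1 a1
    exact a2 x (hs x hx) e ▸ hx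
  · obtain ⟨-, x, hx, f⟩ := mem_filter.1 hb
    exact hA b a (hc a ha x hx (h3 a b x e f) ▸ f) e

theorem card_Ap_NN (h : Q ∈ QO T) (hA : Anti Q) : nn T Q = (Ap_NN T Q).card := by
  have hA' : Anti (flip Q) := fun a b e f => hA a b f e
  obtain ⟨h1, h2, h3⟩ := mem_QO.1 h
  refine card_nbij' (fun p => (mx_NN Q p.1, mx_NN (flip Q) p.2))
    (fun p => (cl_NN T Q p.1, cl_NN T (flip Q) p.2)) (fun p hp => ?_) (fun p hp => ?_)
    (fun p hp => ?_) fun p hp => ?_
  · obtain ⟨p1, p2, p3, -, p5, p6⟩ := mem_Pr.1 hp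
    have d := disjoint_left.1 p3
    refine mem_Ap_NN.2 ⟨(filter_subset _ _).trans p1, (filter_subset _ _).trans p2,
      p3.mono (filter_subset _ _) (filter_subset _ _), fun a ha b hb hab => ?_⟩
    rcases mem_union.1 ha with a1 | a1 <;> rcases mem_union.1 hb with b1 | b1
    · exact iff_of_false (fun e => hab ((mem_filter.1 a1).2 b (mem_filter.1 b1).1 e).symm)
        fun e => d (mem_filter.1 b1).1 (mem_filter.1 e.2).1
    · exact iff_of_true (p6 a (mem_filter.1 a1).1 b (mem_filter.1 b1).1)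
        ⟨fun e => d (mem_filter.1 a1).1 (mem_filter.1 e).1, b1⟩
    · exact iff_of_false (fun e => d (mem_filter.1 b1).1 (p5 a b e (mem_filter.1 a1).1))
        fun e => e.1 a1
    · exact iff_of_false (fun e => hab ((mem_filter.1 b1).2 a (mem_filter.1 a1).1 e))
        fun e => e.1 a1
  · obtain ⟨-, -, p3, p4⟩ := mem_Ap_NN.1 hp
    have d := disjoint_left.1 p3
    refine mem_Pr.2 ⟨filter_subset _ _, filter_subset _ _, disjoint_left.2 fun a ha hb => ?_,
      fun a b e hb => ?_, fun a b e ha => ?_, fun a ha b hb => ?_⟩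
    · obtain ⟨-, x, hx, e⟩ := mem_filter.1 ha
      obtain ⟨-, y, hy, f⟩ := mem_filter.1 hb
      exact ((p4 y (mem_union_right _ hy) x (mem_union_left _ hx) fun k => d hx (k ▸ hy)).1
        (h3 y a x f e)).1 hy
    · obtain ⟨-, x, hx, f⟩ := mem_filter.1 hb
      exact mem_filter.2 ⟨(h1 a b e).1, x, hx, h3 a b x e f⟩
    · obtain ⟨-, x, hx, f⟩ := mem_filter.1 ha
      exact mem_filter.2 ⟨(h1 a b e).2, x, hx, h3 x a b f e⟩
    · obtain ⟨-, x, hx, e⟩ := mem_filter.1 ha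
      obtain ⟨-, y, hy, f⟩ := mem_filter.1 hb
      exact h3 a x b e (h3 x y b ((p4 x (mem_union_left _ hx) y (mem_union_right _ hy)
        fun k => d hx (k ▸ hy)).2 ⟨d hx, hy⟩) f)
  · obtain ⟨p1, p2, -, p4, p5, -⟩ := mem_Pr.1 hp
    exact Prod.ext (cl_mx_NN h hA p1 p4) (cl_mx_NN (flip_NN h) hA' p2 fun a b => p5 b a)
  · obtain ⟨p1, p2, p3, p4⟩ := mem_Ap_NN.1 hp
    refine Prod.ext (mx_cl_NN h hA p1 fun a ha b hb e => by_contra fun k => ?_)
      (mx_cl_NN (flip_NN h) hA' p2 fun a ha b hb e => by_contra fun k => ?_)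
    · exact disjoint_left.1 p3 hb
        ((p4 a (mem_union_left _ ha) b (mem_union_left _ hb) k).1 e).2
    · exact ((p4 b (mem_union_right _ hb) a (mem_union_right _ ha) (Ne.symm k)).1 e).1 hb

theorem top_NN {X Y : Finset α} (h : Spl Q Y (X ∪ Y)) (hY : Y ≠ ∅) :
    Y = (X ∪ Y).filter fun z => ∀ b ∈ X ∪ Y, z ≠ b → ¬ Q z b := by
  refine Subset.antisymm (fun z hz => mem_filter.2 ⟨mem_union_right _ hz, fun b hb k e =>
    ((h z (mem_union_right _ hz) b hb k).1 e).1 hz⟩) fun z hz => by_contra fun k => ?_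
  obtain ⟨y, hy⟩ := nonempty_iff_ne_empty.2 hY
  have e : z ≠ y := fun e => k (e ▸ hy)
  exact (mem_filter.1 hz).2 y (mem_union_right _ hy) e
    ((h z (mem_filter.1 hz).1 y (mem_union_right _ hy) e).2 ⟨k, hy⟩)

end aux

theorem sNN : SNN := by
  intro α _ T Q h hA
  have h0 : ∅ ∈ Gd T Q := mem_Gd.2 ⟨empty_subset _, ∅, fun a ha => absurd ha (notMem_empty a)⟩
  have h1 : ((Ap_NN T Q).filter fun p => p.2 = ∅).card = (Zs T Q ∅).card := by
    refine card_nbij' Prod.fst (fun X => (X, ∅)) (fun p hp => ?_) (fun X hX => ?_)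
      (fun p hp => Prod.ext rfl (mem_filter.1 hp).2.symm) fun _ _ => rfl
    · obtain ⟨p1, p2⟩ := mem_filter.1 hp
      obtain ⟨a, -, -, b⟩ := mem_Ap_NN.1 p1
      rw [p2, union_empty] at b
      exact mem_Zs.2 ⟨a, b⟩
    · exact mem_filter.2 ⟨mem_Ap_NN.2 ⟨(mem_Zs.1 hX).1, empty_subset _, disjoint_empty_right _,
        (mem_Zs.1 hX).2.mono (union_empty X).subset⟩, rfl⟩
  have h2 : ((Ap_NN T Q).filter fun p => ¬ p.2 = ∅).card = ((Gd T Q).erase ∅).card := by
    refine card_bij (fun p _ => p.1 ∪ p.2) (fun p hp => ?_) (fun p hp q hq e => ?_) fun Z hZ => ?_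
    · obtain ⟨p1, p2⟩ := mem_filter.1 hp
      obtain ⟨a, b, -, c⟩ := mem_Ap_NN.1 p1
      exact mem_erase.2 ⟨fun k => p2 (union_eq_empty.1 k).2, mem_Gd.2 ⟨union_subset a b, _, c⟩⟩
    · obtain ⟨p1, p2⟩ := mem_filter.1 hp
      obtain ⟨q1, q2⟩ := mem_filter.1 hq
      obtain ⟨-, -, a, b⟩ := mem_Ap_NN.1 p1
      obtain ⟨-, -, c, d⟩ := mem_Ap_NN.1 q1
      have k : p.2 = q.2 := by rw [top_NN b p2, e, ← top_NN d q2]
      refine Prod.ext ?_ k
      rw [← union_sdiff_cancel_right a, e, k, union_sdiff_cancel_right c]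
    · obtain ⟨z1, z2⟩ := mem_erase.1 hZ
      obtain ⟨z3, U, z4⟩ := mem_Gd.1 z2
      by_cases k : Z ∩ U = ∅
      · refine ⟨(∅, Z), mem_filter.2 ⟨mem_Ap_NN.2 ⟨empty_subset _, z3, disjoint_empty_left _,
          fun a ha b hb e => ?_⟩, z1⟩, empty_union Z⟩
        rw [empty_union] at ha hb
        exact iff_of_false (fun f => notMem_empty b (k ▸ mem_inter.2
          ⟨hb, ((z4 a ha b hb e).1 f).2⟩)) fun f => f.1 ha
      · refine ⟨(Z \ U, Z ∩ U), mem_filter.2 ⟨mem_Ap_NN.2 ⟨sdiff_subset.trans z3,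
          inter_subset_left.trans z3, disjoint_sdiff_inter Z U, fun a ha b hb e => ?_⟩, k⟩,
          sdiff_union_inter Z U⟩
        rw [sdiff_union_inter] at ha hb
        rw [z4 a ha b hb e]
        simp only [mem_inter, ha, hb, true_and]
  rw [card_Ap_NN h hA, ← card_filter_add_card_filter_not (s := Ap_NN T Q) fun p => p.2 = ∅, h1, h2,
    ← card_erase_add_one h0]
  omega

end NN

section Pick


/-- members of `F` with a prescribed pattern on three points -/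
def W_Pick {α : Type} (F : Finset (Finset α)) (a b c : α) (p q r : Prop) : ℕ :=
  (F.filter fun Z => (a ∈ Z ↔ p) ∧ (b ∈ Z ↔ q) ∧ (c ∈ Z ↔ r)).card

theorem mono_Pick {α : Type} {F : Finset (Finset α)} (hF : ∀ Z ∈ F, ∀ Y, Y ⊆ Z → Y ∈ F) (x : α)
    (P R : Finset α → Prop) {_ : DecidablePred P} {_ : DecidablePred R}
    (h : ∀ Z, P Z → x ∈ Z ∧ R (Z.erase x)) : (F.filter P).card ≤ (F.filter R).card := by
  refine card_le_card_of_injOn (fun Z => Z.erase x) (fun Z hZ => ?_) fun Z hZ Y hY e => ?_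
  · have k := mem_filter.1 (mem_coe.1 hZ)
    exact mem_coe.2 (mem_filter.2 ⟨hF Z k.1 _ (erase_subset _ _), (h Z k.2).2⟩)
  · rw [← insert_erase (h Z (mem_filter.1 (mem_coe.1 hZ)).2).1,
      ← insert_erase (h Y (mem_filter.1 (mem_coe.1 hY)).2).1]
    exact congrArg (insert x) e

theorem sTri : STri := by
  intro α F a b c hF hab hac hbc hn
  have m1 : ∀ q r, W_Pick F a b c True q r ≤ W_Pick F a b c False q r := fun q r =>
    mono_Pick hF a _ _ fun Z h => by simpa [hab.symm, hac.symm] using h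
  have m2 : ∀ p r, W_Pick F a b c p True r ≤ W_Pick F a b c p False r := fun p r =>
    mono_Pick hF b _ _ fun Z h => by simpa [hab, hbc.symm, and_left_comm] using h
  have m3 : ∀ p q, W_Pick F a b c p q True ≤ W_Pick F a b c p q False := fun p q =>
    mono_Pick hF c _ _ fun Z h => ⟨h.2.2.2 trivial, by simpa [hac, hbc] using ⟨h.1, h.2.1⟩⟩
  have z : W_Pick F a b c True True True = 0 := by
    simp only [W_Pick, card_eq_zero, filter_eq_empty_iff]
    refine fun Z hZ h => hn (hF Z hZ _ ?_)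
    simpa [insert_subset_iff] using h
  have e0 : F.card = W_Pick F a b c True True True + W_Pick F a b c True True False +
      W_Pick F a b c True False True + W_Pick F a b c True False False +
      W_Pick F a b c False True True + W_Pick F a b c False True False +
      W_Pick F a b c False False True + W_Pick F a b c False False False := by
    simp only [W_Pick, card_filter, ← sum_add_distrib]
    rw [card_eq_sum_ones]
    refine sum_congr rfl fun Z _ => ?_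
    by_cases h1 : a ∈ Z <;> by_cases h2 : b ∈ Z <;> by_cases h3 : c ∈ Z <;> simp [h1, h2, h3]
  have e1 : (F.filter fun Z => a ∉ Z).card + (F.filter fun Z => b ∉ Z).card +
      (F.filter fun Z => c ∉ Z).card = W_Pick F a b c True True False +
      W_Pick F a b c True False True + 2 * W_Pick F a b c True False False +
      W_Pick F a b c False True True + 2 * W_Pick F a b c False True False +
      2 * W_Pick F a b c False False True + 3 * W_Pick F a b c False False False := by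
    simp only [W_Pick, card_filter, mul_sum, ← sum_add_distrib]
    refine sum_congr rfl fun Z _ => ?_
    by_cases h1 : a ∈ Z <;> by_cases h2 : b ∈ Z <;> by_cases h3 : c ∈ Z <;> simp [h1, h2, h3]
  have a1 := m1 False False
  have a2 := m2 False False
  have a3 := m3 False False
  have b1 := m1 False True
  have b2 := m2 True False
  have b3 := m3 False True
  omega

variable {α : Type} [Fintype α]

theorem tri_Pick {T : Finset α} {Q : α → α → Prop} (hQ : Q ∈ QO T) (hA : Anti Q)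
    (hn : ¬ ∃ U, Spl Q U T) : ∃ a ∈ T, ∃ b ∈ T, ∃ c ∈ T, a ≠ b ∧ a ≠ c ∧ b ≠ c ∧
      ¬ ∃ U, Spl Q U {a, b, c} := by
  have hT := (mem_QO.1 hQ).1
  by_contra hc
  refine hn ⟨T.filter fun b => ∃ a, a ≠ b ∧ Q a b, fun a ha b hb hab => ?_⟩
  simp only [mem_filter, ha, hb, true_and]
  constructor
  · refine fun h => ⟨?_, a, hab, h⟩
    rintro ⟨c, hca, h'⟩
    refine hc ⟨a, ha, b, hb, c, (hT _ _ h').1, hab, hca.symm, ?_, ?_⟩
    · rintro rfl
      exact hab (hA _ _ h h')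
    · rintro ⟨U, hU⟩
      exact ((hU a (by simp) b (by simp) hab).1 h).1 ((hU c (by simp) a (by simp) hca).1 h').2
  · rintro ⟨h1, c, hcb, h2⟩
    by_contra h
    have hca : c ≠ a := by
      rintro rfl
      exact h h2
    refine hc ⟨a, ha, b, hb, c, (hT _ _ h2).1, hab, hca.symm, hcb.symm, ?_⟩
    rintro ⟨U, hU⟩
    have k := (hU c (by simp) b (by simp) hcb).1 h2
    refine h ((hU a (by simp) b (by simp) hab).2 ⟨fun k' => ?_, k.2⟩)
    exact h1 ⟨c, hca, (hU c (by simp) a (by simp) hca).2 ⟨k.1, k'⟩⟩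

theorem gd_Pick (T : Finset α) (Q : α → α → Prop) (v : α) :
    ((Gd T Q).filter fun Z => v ∉ Z) = Gd (T.erase v) (del v Q) := by
  ext Z
  rw [mem_filter, mem_Gd, mem_Gd, subset_erase]
  exact ⟨fun ⟨⟨h1, U, h2⟩, h3⟩ => ⟨⟨h1, h3⟩, U, (spl_del h3).2 h2⟩,
    fun ⟨⟨h1, h3⟩, U, h2⟩ => ⟨⟨h1, U, (spl_del h3).1 h2⟩, h3⟩⟩

theorem zs_Pick (T : Finset α) (Q : α → α → Prop) (v : α) :
    ((Zs T Q ∅).filter fun Z => v ∉ Z) = Zs (T.erase v) (del v Q) ∅ := by
  ext Z
  rw [mem_filter, mem_Zs, mem_Zs, subset_erase]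
  exact ⟨fun ⟨⟨h1, h2⟩, h3⟩ => ⟨⟨h1, h3⟩, (spl_del h3).2 h2⟩,
    fun ⟨⟨h1, h3⟩, h2⟩ => ⟨⟨h1, (spl_del h3).1 h2⟩, h3⟩⟩

theorem six_Pick {T : Finset α} (Q : α → α → Prop) {x y : α} (hx : x ∈ T) (hy : y ∈ T)
    (h : x ≠ y) : 6 ≤ (Gd T Q).card + (Zs T Q ∅).card := by
  have h1 : (Zs T Q ∅).card ≤ (Gd T Q).card :=
    card_le_card fun Z hZ => mem_Gd.2 ⟨(mem_Zs.1 hZ).1, _, (mem_Zs.1 hZ).2⟩
  have h2 : ∀ z ∈ T, ({z} : Finset α) ∈ Zs T Q ∅ := fun z hz =>
    mem_Zs.2 ⟨singleton_subset_iff.2 hz, fun a ha b hb hab =>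
      absurd ((mem_singleton.1 ha).trans (mem_singleton.1 hb).symm) hab⟩
  have h3 : 2 < (Zs T Q ∅).card := two_lt_card_iff.2 ⟨∅, {x}, {y},
    mem_Zs.2 ⟨empty_subset _, fun a ha => absurd ha (notMem_empty a)⟩, h2 x hx, h2 y hy,
    (singleton_ne_empty x).symm, (singleton_ne_empty y).symm, fun e => h (singleton_injective e)⟩
  omega

theorem sPick (hN : SNN) (hT : STri) : SPick := by
  intro α _ T Q hQ hA hn
  obtain ⟨a, ha, b, hb, c, hc, hab, hac, hbc, h⟩ := tri_Pick hQ hA hn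
  have g1 := hT α (Gd T Q) a b c (fun Z hZ Y hY => mem_Gd.2 ⟨hY.trans (mem_Gd.1 hZ).1,
    (mem_Gd.1 hZ).2.imp fun _ k => k.mono hY⟩) hab hac hbc fun k => h (mem_Gd.1 k).2
  have g2 := hT α (Zs T Q ∅) a b c (fun Z hZ Y hY => mem_Zs.2 ⟨hY.trans (mem_Zs.1 hZ).1,
    (mem_Zs.1 hZ).2.mono hY⟩) hab hac hbc fun k => h ⟨_, (mem_Zs.1 k).2⟩
  rw [gd_Pick, gd_Pick, gd_Pick] at g1
  rw [zs_Pick, zs_Pick, zs_Pick] at g2
  have n0 := hN α T Q hQ hA
  have n1 := hN α _ _ (del_mem hQ a) (hA.del a)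
  have n2 := hN α _ _ (del_mem hQ b) (hA.del b)
  have n3 := hN α _ _ (del_mem hQ c) (hA.del c)
  have s1 := six_Pick (del a Q) (mem_erase.2 ⟨hab.symm, hb⟩) (mem_erase.2 ⟨hac.symm, hc⟩) hbc
  have s2 := six_Pick (del b Q) (mem_erase.2 ⟨hab, ha⟩) (mem_erase.2 ⟨hbc.symm, hc⟩) hac
  have s3 := six_Pick (del c Q) (mem_erase.2 ⟨hac, ha⟩) (mem_erase.2 ⟨hbc, hb⟩) hab
  by_contra hk
  have k1 : ¬ 10 * nn T Q ≤ 19 * nn (T.erase a) (del a Q) := fun k => hk ⟨a, ha, k⟩
  have k2 : ¬ 10 * nn T Q ≤ 19 * nn (T.erase b) (del b Q) := fun k => hk ⟨b, hb, k⟩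
  have k3 : ¬ 10 * nn T Q ≤ 19 * nn (T.erase c) (del c Q) := fun k => hk ⟨c, hc, k⟩
  omega

end Pick

section Del


section
variable {α : Type} [Fintype α] {T U Z : Finset α} {Q : α → α → Prop} {v : α}

theorem bot_Del (hZ : Z ⊆ T) (hv : v ∈ Z) (h : Spl Q U Z) (hU : v ∉ U) :
    Z.erase v ∈ bot T Q v := by
  have k : ∀ c ∈ Z.erase v, (c ∈ up Q v ↔ c ∈ U) := fun c hc => by
    have hc' := ne_of_mem_erase hc
    rw [mem_up, h v hv c (mem_of_mem_erase hc) hc'.symm]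
    tauto
  refine mem_filter.2 ⟨mem_Zs.2 ⟨erase_subset_erase _ hZ, (spl_del (notMem_erase v Z)).2
    fun a ha b hb hab => ?_⟩, disjoint_left.2 fun c hc hd => ?_⟩
  · rw [k a ha, k b hb, h a (mem_of_mem_erase ha) b (mem_of_mem_erase hb) hab]
  · exact hU ((h c (mem_of_mem_erase hc) v hv (ne_of_mem_erase hc)).1 (mem_dn.1 hd).1).2

theorem top_Del (hZ : Z ⊆ T) (hv : v ∈ Z) (h : Spl Q U Z) (hU : v ∈ U) :
    Z.erase v ∈ top T Q v := by
  have k : ∀ c ∈ Z.erase v, (c ∈ T.erase v \ dn Q v ↔ c ∈ U) := fun c hc => by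
    have hc' := ne_of_mem_erase hc
    have := erase_subset_erase v hZ hc
    rw [mem_sdiff, mem_dn, h c (mem_of_mem_erase hc) v hv hc']
    tauto
  refine mem_filter.2 ⟨mem_Zs.2 ⟨erase_subset_erase _ hZ, (spl_del (notMem_erase v Z)).2
    fun a ha b hb hab => ?_⟩, disjoint_left.2 fun c hc hd => ?_⟩
  · rw [k a ha, k b hb, h a (mem_of_mem_erase ha) b (mem_of_mem_erase hb) hab]
  · exact ((h v hv c (mem_of_mem_erase hc) (ne_of_mem_erase hc).symm).1 (mem_up.1 hd).1).1 hU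

omit [Fintype α] in
theorem split_Del {F F' B : Finset (Finset α)} (h1 : ∀ Z ∈ F, v ∉ Z → Z ∈ F')
    (h2 : ∀ Z ∈ F, v ∈ Z → Z.erase v ∈ B) : F.card ≤ F'.card + B.card := by
  rw [← card_filter_add_card_filter_not (s := F) fun Z => v ∈ Z, add_comm]
  refine add_le_add (card_le_card fun Z hZ => h1 Z (mem_filter.1 hZ).1 (mem_filter.1 hZ).2)
    (card_le_card_of_injOn (fun Z => Z.erase v)
      (fun Z hZ => h2 Z (mem_filter.1 hZ).1 (mem_filter.1 hZ).2) fun Y hY Z hZ e => ?_)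
  rw [← insert_erase (mem_filter.1 hY).2, ← insert_erase (mem_filter.1 hZ).2]
  exact congrArg (insert v) e

theorem low_Del : IsLowerSet (Zs T Q U : Set (Finset α)) := fun _ _ h hZ =>
  mem_Zs.2 ⟨Subset.trans h (mem_Zs.1 hZ).1, (mem_Zs.1 hZ).2.mono h⟩

theorem sub_Del {U0 : Finset α} :
    Zs T Q U ∩ Zs T Q U0 ⊆ (T \ symmDiff U U0).powerset ∪ (symmDiff U U0).powerset := by
  intro Z hZ
  obtain ⟨h1, h2⟩ := mem_Zs.1 (mem_inter.1 hZ).1
  have h3 := (mem_Zs.1 (mem_inter.1 hZ).2).2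
  by_contra hc
  rw [mem_union, mem_powerset, mem_powerset, not_or, not_subset, not_subset] at hc
  obtain ⟨⟨x, hx, a1⟩, y, hy, a2⟩ := hc
  rw [mem_sdiff, not_and, not_not] at a1
  have a3 := a1 (h1 hx)
  have hne : x ≠ y := fun e => a2 (e ▸ a3)
  have b1 := (h2 x hx y hy hne).symm.trans (h3 x hx y hy hne)
  have b2 := (h2 y hy x hx hne.symm).symm.trans (h3 y hy x hx hne.symm)
  rw [mem_symmDiff] at a2 a3
  tauto

end

theorem num_Del {a b s : ℕ} (h : 2 ^ (a + b) ≤ 2 ^ s * 2 ^ s * (2 ^ a + 2 ^ b)) :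
    a ≤ 2 * s + 1 ∨ b ≤ 2 * s + 1 := by
  by_contra hc
  obtain ⟨a', rfl⟩ : ∃ a', a = 2 * s + 2 + a' := ⟨a - (2 * s + 2), by omega⟩
  obtain ⟨b', rfl⟩ : ∃ b', b = 2 * s + 2 + b' := ⟨b - (2 * s + 2), by omega⟩
  have e1 : 2 ^ (2 * s + 2 + a' + (2 * s + 2 + b')) =
      4 * 2 ^ (4 * s) * (4 * (2 ^ a' * 2 ^ b')) := by ring
  have e2 : 2 ^ s * 2 ^ s * (2 ^ (2 * s + 2 + a') + 2 ^ (2 * s + 2 + b')) =
      4 * 2 ^ (4 * s) * (2 ^ a' + 2 ^ b') := by ring
  rw [e1, e2] at h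
  have h1 := Nat.le_of_mul_le_mul_left h (by positivity)
  have h2 : 1 ≤ 2 ^ a' := Nat.one_le_two_pow
  have h3 : 1 ≤ 2 ^ b' := Nat.one_le_two_pow
  nlinarith

theorem sDel (hN : SNN) : SDel := by
  intro α _ T Q hQ hA v _
  have h1 := hN α T Q hQ hA
  have h2 := hN α (T.erase v) (del v Q) (del_mem hQ v) (hA.del v)
  have h3 : (Gd T Q).card ≤ (Gd (T.erase v) (del v Q)).card + (bot T Q v ∪ top T Q v).card :=
    split_Del (v := v) (fun Z hZ hv => by
      obtain ⟨a, U, b⟩ := mem_Gd.1 hZ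
      exact mem_Gd.2 ⟨subset_erase.2 ⟨a, hv⟩, U, (spl_del hv).2 b⟩) fun Z hZ hv => by
      obtain ⟨a, U, b⟩ := mem_Gd.1 hZ
      by_cases hU : v ∈ U
      · exact mem_union_right _ (top_Del a hv b hU)
      · exact mem_union_left _ (bot_Del a hv b hU)
  have h4 : (Zs T Q ∅).card ≤ (Zs (T.erase v) (del v Q) ∅).card + (bot T Q v ∩ top T Q v).card :=
    split_Del (v := v) (fun Z hZ hv => by
      obtain ⟨a, b⟩ := mem_Zs.1 hZ
      exact mem_Zs.2 ⟨subset_erase.2 ⟨a, hv⟩, (spl_del hv).2 b⟩) fun Z hZ hv => by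
      obtain ⟨a, b⟩ := mem_Zs.1 hZ
      refine mem_inter.2 ⟨bot_Del a hv b (notMem_empty v), top_Del (U := univ) a hv
        (fun x hx y hy hxy => ?_) (mem_univ v)⟩
      simpa using b x hx y hy hxy
  have h5 := card_union_add_card_inter (bot T Q v) (top T Q v)
  omega

theorem sClu : SClu := by
  intro α _ T Q s
  rcases (T.powerset.filter fun U => 2 ^ T.card ≤ 2 ^ s * (Zs T Q U).card).eq_empty_or_nonempty
    with h | ⟨U0, h0⟩
  · rw [h]
    exact Nat.zero_le _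
  obtain ⟨a0, b0⟩ := mem_filter.1 h0
  refine (card_le_card_of_injOn (t := small α (2 * s + 1) ∪ (small α (2 * s + 1)).image (T \ ·))
    (fun U => symmDiff U U0) (fun U hU => ?_) fun _ _ _ _ e => symmDiff_left_injective U0 e).trans
    ((card_union_le _ _).trans ?_)
  · obtain ⟨a, b⟩ := mem_filter.1 hU
    have hS : symmDiff U U0 ⊆ T := fun x hx => (mem_symmDiff.1 hx).elim
      (fun k => mem_powerset.1 a k.1) fun k => mem_powerset.1 a0 k.1
    have h1 := (low_Del (T := T) (Q := Q) (U := U)).le_card_inter_finset'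
      (low_Del (T := T) (Q := Q) (U := U0)) (fun Z hZ => (mem_Zs.1 hZ).1)
      fun Z hZ => (mem_Zs.1 hZ).1
    have h2 := (card_le_card (sub_Del (T := T) (Q := Q) (U := U) (U0 := U0))).trans
      (card_union_le _ _)
    rw [card_powerset, card_powerset] at h2
    have h3 : 2 ^ T.card ≤ 2 ^ s * 2 ^ s *
        (2 ^ (T \ symmDiff U U0).card + 2 ^ (symmDiff U U0).card) := by
      refine Nat.le_of_mul_le_mul_left ?_ (Nat.two_pow_pos T.card)
      calc 2 ^ T.card * 2 ^ T.card ≤ 2 ^ s * (Zs T Q U).card * (2 ^ s * (Zs T Q U0).card) :=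
            Nat.mul_le_mul b b0
        _ = 2 ^ s * 2 ^ s * ((Zs T Q U).card * (Zs T Q U0).card) := by ring
        _ ≤ 2 ^ s * 2 ^ s * (2 ^ T.card * _) :=
            Nat.mul_le_mul_left _ (h1.trans (Nat.mul_le_mul_left _ h2))
        _ = _ := by ring
    rw [← card_sdiff_add_card_eq_card hS] at h3
    rcases num_Del h3 with k | k
    · exact mem_coe.2 (mem_union_right _ (mem_image.2
        ⟨T \ symmDiff U U0, mem_small.2 k, Finset.sdiff_sdiff_eq_self hS⟩))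
    · exact mem_coe.2 (mem_union_left _ (mem_small.2 k))
  · rw [two_mul (small α (2 * s + 1)).card]
    exact Nat.add_le_add_left card_image_le _

end Del

section Ext


section
variable {α : Type} [Fintype α] {T : Finset α} {v : α}

theorem inj_Ext (hv : v ∈ T) {Q Q' : α → α → Prop} (hQ : Q ∈ QO T) (hQ' : Q' ∈ QO T)
    (h : del v Q = del v Q') (e : (dn Q v, up Q v) = (dn Q' v, up Q' v)) : Q = Q' := by
  obtain ⟨e1, e2⟩ := Prod.mk.inj e
  funext a b
  apply propext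
  by_cases ha : a = v
  · by_cases hb : b = v
    · rw [ha, hb]
      exact iff_of_true ((mem_QO.1 hQ).2.1 v hv) ((mem_QO.1 hQ').2.1 v hv)
    · simpa [mem_up, hb, ha] using Finset.ext_iff.1 e2 b
  · by_cases hb : b = v
    · simpa [mem_dn, hb, ha] using Finset.ext_iff.1 e1 a
    · simpa [del, ha, hb] using congrFun (congrFun h a) b

theorem pr_Ext {Q : α → α → Prop} (hQ : Q ∈ QO T) (hA : Anti Q) :
    (dn Q v, up Q v) ∈ Pr (T.erase v) (del v Q) := by
  obtain ⟨h1, -, h3⟩ := mem_QO.1 hQ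
  refine mem_Pr.2 ⟨fun z hz => ?_, fun z hz => ?_, disjoint_left.2 fun z hz hz' => ?_,
    fun a b e hb => ?_, fun a b e ha => ?_, fun a ha b hb => ?_⟩
  · exact mem_erase.2 ⟨(mem_dn.1 hz).2, (h1 _ _ (mem_dn.1 hz).1).1⟩
  · exact mem_erase.2 ⟨(mem_up.1 hz).2, (h1 _ _ (mem_up.1 hz).1).2⟩
  · exact (mem_dn.1 hz).2 (hA _ _ (mem_dn.1 hz).1 (mem_up.1 hz').1)
  · exact mem_dn.2 ⟨h3 _ _ _ e.1 (mem_dn.1 hb).1, e.2.1⟩
  · exact mem_up.2 ⟨h3 _ _ _ (mem_up.1 ha).1 e.1, e.2.2⟩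
  · exact ⟨h3 _ _ _ (mem_dn.1 ha).1 (mem_up.1 hb).1, (mem_dn.1 ha).2, (mem_up.1 hb).2⟩

theorem small_Ext {S D U : Finset α} {P : α → α → Prop} {s : ℕ} (hD : D ⊆ S)
    (h : 2 ^ S.card ≤ 2 ^ s * ((Zs S P U).filter fun Z => Disjoint Z D).card) :
    D ∈ small α (2 * s + 1) ∧ 2 ^ S.card ≤ 2 ^ s * (Zs S P U).card := by
  refine ⟨mem_small.2 ?_, h.trans (Nat.mul_le_mul_left _ (card_filter_le _ _))⟩
  have h1 : ((Zs S P U).filter fun Z => Disjoint Z D).card ≤ 2 ^ (S \ D).card := by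
    rw [← card_powerset]
    refine card_le_card fun Z hZ => mem_powerset.2 ?_
    rw [mem_filter, mem_Zs] at hZ
    exact subset_sdiff.2 ⟨hZ.1.1, hZ.2⟩
  have h2 := h.trans (Nat.mul_le_mul_left _ h1)
  rw [← pow_add, Nat.pow_le_pow_iff_right one_lt_two, card_sdiff_of_subset hD] at h2
  have := card_le_card hD
  omega

end

theorem pow_Ext {x N b m : ℕ} (hm : 1 ≤ m) (h1 : x ≤ N + b) (h2 : m * b ≤ N) :
    (x : ℝ) ^ m ≤ 3 * (N : ℝ) ^ m := by
  have hm' : (0 : ℝ) < m := by exact_mod_cast hm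
  have h3 : (x : ℝ) ≤ (1 / m + 1) * N := by
    have a1 : (x : ℝ) ≤ N + b := by exact_mod_cast h1
    have a2 : (b : ℝ) ≤ 1 / m * N := by
      rw [one_div, ← div_eq_inv_mul, le_div_iff₀' hm']; exact_mod_cast h2
    linarith
  refine (pow_le_pow_left₀ (by positivity) h3 m).trans ?_
  rw [mul_pow]
  refine mul_le_mul_of_nonneg_right ?_ (by positivity)
  refine (pow_le_pow_left₀ (by positivity) (Real.add_one_le_exp _) m).trans ?_
  rw [← Real.exp_nat_mul, mul_one_div_cancel hm'.ne']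
  exact Real.exp_one_lt_d9.le.trans (by norm_num)

theorem big_Ext {t k s m x N b : ℕ} (hs : 4 * m * 2 ^ k ≤ 2 ^ s) (h1 : 10 * x ≤ 19 * N)
    (h2 : 2 ^ (t + 1) < 2 ^ k * x) (h3 : N ≤ 2 * m * b) : 2 ^ t ≤ 2 ^ s * b :=
  calc 2 ^ t ≤ 2 ^ (t + 1) := Nat.pow_le_pow_right two_pos t.le_succ
    _ ≤ 2 ^ k * x := h2.le
    _ ≤ 2 ^ k * (2 * (2 * m * b)) := Nat.mul_le_mul_left _ (by omega)
    _ = 4 * m * 2 ^ k * b := by ring
    _ ≤ _ := Nat.mul_le_mul_right _ hs

theorem sExt (hN : SNN) (hD : SDel) (hC : SClu) : SExt := by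
  intro α _ T m k s hm hs v hv P hP
  set F := (QO T).filter fun Q => Anti Q ∧ del v Q = P ∧ 10 * nn T Q ≤ 19 * nn (T.erase v) P ∧
    2 ^ T.card < 2 ^ k * nn T Q with hF
  have hmem : ∀ Q ∈ F, Q ∈ QO T ∧ Anti Q ∧ del v Q = P ∧
      10 * nn T Q ≤ 19 * nn (T.erase v) P ∧ 2 ^ T.card < 2 ^ k * nn T Q :=
    fun Q hQ => mem_filter.1 hQ
  have hinj : Set.InjOn (fun Q => (dn Q v, up Q v)) F := fun Q hQ Q' hQ' e =>
    inj_Ext hv (hmem Q hQ).1 (hmem Q' hQ').1 ((hmem Q hQ).2.2.1.trans (hmem Q' hQ').2.2.1.symm) e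
  have ht : T.card = (T.erase v).card + 1 := (card_erase_add_one hv).symm
  rw [← sum_filter_add_sum_filter_not F
    fun Q => m * ((bot T Q v).card + (top T Q v).card) ≤ nn (T.erase v) P, add_mul]
  refine add_le_add ?_ ?_
  · refine (sum_le_card_nsmul _ _ (3 * (nn (T.erase v) P : ℝ) ^ m) fun Q hQ => ?_).trans ?_
    · obtain ⟨h1, h2⟩ := mem_filter.1 hQ
      obtain ⟨a1, a2, a3, -⟩ := hmem Q h1
      have := hD α T Q a1 a2 v hv
      rw [a3, add_assoc] at this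
      exact pow_Ext hm this h2
    · rw [nsmul_eq_mul, ← mul_assoc, mul_comm _ (3 : ℝ)]
      refine mul_le_mul_of_nonneg_right (mul_le_mul_of_nonneg_left ?_ (by norm_num))
        (by positivity)
      norm_cast
      rcases F.eq_empty_or_nonempty with e | ⟨Q, hQ⟩
      · simp [e]
      obtain ⟨-, a2, a3, -⟩ := hmem Q hQ
      have h1 := hN α _ P hP (a3 ▸ a2.del v)
      have h2 : (Gd (T.erase v) P).card ≤ 2 ^ (T.erase v).card :=
        (card_filter_le _ _).trans (card_powerset _).le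
      have h3 : (Zs (T.erase v) P ∅).card ≤ 2 ^ (T.erase v).card :=
        (card_filter_le _ _).trans (card_powerset _).le
      refine (card_le_card_of_injOn (t := Pr (T.erase v) P) _ (fun Q hQ => ?_)
        (hinj.mono (coe_subset.2 (filter_subset _ _)))).trans ?_
      · obtain ⟨b1, b2, b3, -⟩ := hmem Q (mem_filter.1 hQ).1
        exact b3 ▸ pr_Ext b1 b2
      · rw [ht, pow_succ]
        change nn _ _ ≤ _
        omega
  · refine (sum_le_card_nsmul _ _ ((19 / 10) ^ m * (nn (T.erase v) P : ℝ) ^ m)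
      fun Q hQ => ?_).trans ?_
    · rw [← mul_pow]
      refine pow_le_pow_left₀ (by positivity) ?_ m
      have : (10 * nn T Q : ℝ) ≤ 19 * nn (T.erase v) P := by
        exact_mod_cast (hmem Q (mem_filter.1 hQ).1).2.2.2.1
      linarith
    · rw [nsmul_eq_mul, ← mul_assoc]
      refine mul_le_mul_of_nonneg_right (mul_le_mul_of_nonneg_right ?_ (by positivity))
        (by positivity)
      norm_cast
      have hG := hC α (T.erase v) P s
      set G := (T.erase v).powerset.filter fun U =>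
        2 ^ (T.erase v).card ≤ 2 ^ s * (Zs (T.erase v) P U).card
      refine (card_le_card_of_injOn (t := small α (2 * s + 1) ×ˢ G ∪
        G.image (T.erase v \ ·) ×ˢ small α (2 * s + 1)) _ (fun Q hQ => ?_)
        (hinj.mono (coe_subset.2 (filter_subset _ _)))).trans ?_
      · obtain ⟨h1, h2⟩ := mem_filter.1 hQ
        obtain ⟨b1, b2, b3, b4, b5⟩ := hmem Q h1
        obtain ⟨c1, c2, -⟩ := mem_Pr.1 (pr_Ext (v := v) b1 b2)
        rw [ht] at b5
        rw [mem_coe, mem_union, mem_product, mem_product]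
        rcases le_total (top T Q v).card (bot T Q v).card with h | h
        · have := small_Ext c1 (big_Ext (b := (bot T Q v).card) hs b4 b5 (by nlinarith))
          rw [b3] at this
          exact Or.inl ⟨this.1, mem_filter.2 ⟨mem_powerset.2 c2, this.2⟩⟩
        · have := small_Ext c2 (big_Ext (b := (top T Q v).card) hs b4 b5 (by nlinarith))
          rw [b3] at this
          exact Or.inr ⟨mem_image.2 ⟨_, mem_filter.2 ⟨mem_powerset.2 sdiff_subset, this.2⟩,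
            Finset.sdiff_sdiff_eq_self c1⟩, this.1⟩
      · refine (card_union_le _ _).trans ?_
        rw [card_product, card_product]
        have h1 := Nat.mul_le_mul_left (small α (2 * s + 1)).card hG
        have h2 := Nat.mul_le_mul_right (small α (2 * s + 1)).card
          ((card_image_le (s := G) (f := (T.erase v \ ·))).trans hG)
        nlinarith

end Ext

section Eq


theorem sum_inj_Eq {β γ : Type} {S : Finset β} {S' : Finset γ} (e : β → γ)
    (he : Set.InjOn e S) (hm : ∀ x ∈ S, e x ∈ S') {f : β → ℕ} {g : γ → ℕ}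
    (h : ∀ x ∈ S, f x ≤ g (e x)) : ∑ x ∈ S, f x ≤ ∑ y ∈ S', g y := by
  refine (sum_le_sum h).trans ?_
  rw [← sum_image he]
  exact sum_le_sum_of_subset (image_subset_iff.2 hm)

theorem sum_bi_Eq {ι β : Type} [DecidableEq β] (J : Finset ι) (B : ι → Finset β) (f : β → ℕ) :
    ∑ x ∈ J.biUnion B, f x ≤ ∑ i ∈ J, ∑ x ∈ B i, f x := by
  induction J using Finset.induction_on with
  | empty => simp
  | insert i J hi ih =>
    rw [biUnion_insert, sum_insert hi]
    have := sum_union_inter (s₁ := B i) (s₂ := J.biUnion B) (f := f)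
    omega

section
variable {α : Type} [Fintype α] {T : Finset α} {Q Q' : α → α → Prop} {v a : α}

theorem imp_Eq (hQ : Q ∈ QO T) (hQ' : Q' ∈ QO T) (hav : a ≠ v) (h1 : Q a v) (h2 : Q v a)
    (h1' : Q' a v) (h2' : Q' v a) (h : del v Q = del v Q') (x y : α) (hxy : Q x y) : Q' x y := by
  have t := (mem_QO.1 hQ).2.2
  have t' := (mem_QO.1 hQ').2.2
  have k : ∀ x y, x ≠ v → y ≠ v → Q x y → Q' x y := fun x y hx hy e => by
    have : del v Q x y := ⟨e, hx, hy⟩
    rw [h] at this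
    exact this.1
  by_cases hx : x = v <;> by_cases hy : y = v
  · rw [hx, hy]
    exact t' _ _ _ h2' h1'
  · rw [hx] at hxy ⊢
    exact t' _ _ _ h2' (k a y hav hy (t _ _ _ h1 hxy))
  · rw [hy] at hxy ⊢
    exact t' _ _ _ (k x a hx hav (t _ _ _ hxy h2)) h1'
  · exact k x y hx hy hxy

omit [Fintype α] in
theorem ext_Eq {D D' : Finset α} (hav : a ≠ v) (h : v ∈ D ↔ a ∈ D) (h' : v ∈ D' ↔ a ∈ D')
    (e : D.erase v = D'.erase v) : D = D' := by
  have k : ∀ x, x ≠ v → (x ∈ D ↔ x ∈ D') := fun x hx => by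
    have := Finset.ext_iff.1 e x
    simpa only [mem_erase, ne_eq, hx, not_false_eq_true, true_and] using this
  ext x
  by_cases hx : x = v
  · rw [hx, h, h', k a hav]
  · exact k x hx

theorem nn_le_Eq (hav : a ≠ v) (h1 : Q a v) (h2 : Q v a) :
    nn T Q ≤ nn (T.erase v) (del v Q) := by
  refine card_le_card_of_injOn (fun p => (p.1.erase v, p.2.erase v)) (fun p hp => ?_)
    fun p hp q hq e => ?_
  · obtain ⟨k1, k2, k3, k4, k5, k6⟩ := mem_Pr.1 (mem_coe.1 hp)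
    refine mem_coe.2 (mem_Pr.2 ⟨erase_subset_erase v k1, erase_subset_erase v k2,
      k3.mono (erase_subset _ _) (erase_subset _ _), fun x y e hy => ?_, fun x y e hx => ?_,
      fun x hx y hy => ?_⟩)
    · exact mem_erase.2 ⟨e.2.1, k4 x y e.1 (mem_of_mem_erase hy)⟩
    · exact mem_erase.2 ⟨e.2.2, k5 x y e.1 (mem_of_mem_erase hx)⟩
    · exact ⟨k6 x (mem_of_mem_erase hx) y (mem_of_mem_erase hy), ne_of_mem_erase hx,
        ne_of_mem_erase hy⟩
  · obtain ⟨-, -, -, k4, k5, -⟩ := mem_Pr.1 (mem_coe.1 hp)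
    obtain ⟨-, -, -, l4, l5, -⟩ := mem_Pr.1 (mem_coe.1 hq)
    exact Prod.ext
      (ext_Eq hav ⟨k4 a v h1, k4 v a h2⟩ ⟨l4 a v h1, l4 v a h2⟩ (congrArg Prod.fst e))
      (ext_Eq hav ⟨k5 v a h2, k5 a v h1⟩ ⟨l5 v a h2, l5 a v h1⟩ (congrArg Prod.snd e))

theorem one_Eq (T : Finset α) (m : ℕ) (v a : α) :
    ∑ Q ∈ (QO T).filter (fun Q => a ≠ v ∧ Q a v ∧ Q v a), nn T Q ^ m ≤ Sm (T.erase v) m := by
  refine sum_inj_Eq (del v) (fun Q hQ Q' hQ' e => ?_)
    (fun Q hQ => del_mem (mem_filter.1 hQ).1 v) fun Q hQ => ?_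
  · obtain ⟨k0, k1, k2, k3⟩ := mem_filter.1 (mem_coe.1 hQ)
    obtain ⟨l0, -, l2, l3⟩ := mem_filter.1 (mem_coe.1 hQ')
    funext x y
    exact propext ⟨imp_Eq k0 l0 k1 k2 k3 l2 l3 e x y, imp_Eq l0 k0 k1 l2 l3 k2 k3 e.symm x y⟩
  · obtain ⟨-, k1, k2, k3⟩ := mem_filter.1 hQ
    exact Nat.pow_le_pow_left (nn_le_Eq k1 k2 k3) m

end

theorem sEq : SEq := by
  intro α _ T m
  have h1 : (QO T).filter (fun Q => ¬ Anti Q) ⊆ (T ×ˢ T).biUnion fun p =>
      (QO T).filter (fun Q => p.2 ≠ p.1 ∧ Q p.2 p.1 ∧ Q p.1 p.2) := by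
    intro Q hQ
    obtain ⟨k1, k2⟩ := mem_filter.1 hQ
    unfold Anti at k2
    push Not at k2
    obtain ⟨a, v, e1, e2, e3⟩ := k2
    obtain ⟨ha, hv⟩ := (mem_QO.1 k1).1 a v e1
    exact mem_biUnion.2 ⟨(v, a), mem_product.2 ⟨hv, ha⟩, mem_filter.2 ⟨k1, e3, e1, e2⟩⟩
  refine (sum_le_sum_of_subset h1).trans ((sum_bi_Eq _ _ _).trans ?_)
  rw [sum_product, mul_sum]
  refine sum_le_sum fun v _ => ?_
  exact (sum_le_card_nsmul T _ _ fun a _ => one_Eq T m v a).trans (le_of_eq (smul_eq_mul _ _))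

theorem sDg : SDg := by
  intro α _ T
  have e1 : Pr T (dg T) = T.powerset.image (fun D => (D, (∅ : Finset α))) ∪
      T.powerset.image fun U => ((∅ : Finset α), U) := by
    ext p
    rw [mem_Pr, mem_union, mem_image, mem_image]
    constructor
    · rintro ⟨k1, k2, k3, -, -, k6⟩
      rcases p.2.eq_empty_or_nonempty with h | ⟨b, hb⟩
      · exact Or.inl ⟨p.1, mem_powerset.2 k1, Prod.ext rfl h.symm⟩
      · refine Or.inr ⟨p.2, mem_powerset.2 k2, Prod.ext (eq_empty_of_forall_notMem ?_).symm rfl⟩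
        intro a ha
        exact disjoint_left.1 k3 ha ((k6 a ha b hb).1 ▸ hb)
    · rintro (⟨D, hD, rfl⟩ | ⟨U, hU, rfl⟩)
      · exact ⟨mem_powerset.1 hD, empty_subset _, disjoint_empty_right _,
          fun a b e h => e.1 ▸ h, fun a b e h => e.1 ▸ h,
          fun _ _ b hb => absurd hb (notMem_empty b)⟩
      · exact ⟨empty_subset _, mem_powerset.1 hU, disjoint_empty_left _,
          fun a b e h => e.1 ▸ h, fun a b e h => e.1 ▸ h, fun a ha => absurd ha (notMem_empty a)⟩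
  have e2 : T.powerset.image (fun D => (D, (∅ : Finset α))) ∩
      T.powerset.image (fun U => ((∅ : Finset α), U)) = {(∅, ∅)} := by
    ext p
    rw [mem_inter, mem_image, mem_image, mem_singleton]
    constructor
    · rintro ⟨⟨D, -, e⟩, U, -, e'⟩
      exact Prod.ext (congrArg Prod.fst e').symm (congrArg Prod.snd e).symm
    · rintro rfl
      exact ⟨⟨∅, empty_mem_powerset T, rfl⟩, ∅, empty_mem_powerset T, rfl⟩
  have e3 := card_union_add_card_inter (T.powerset.image fun D => (D, (∅ : Finset α)))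
    (T.powerset.image fun U => ((∅ : Finset α), U))
  rw [e2, ← e1, card_singleton,
    card_image_of_injective _ (fun _ _ e => congrArg Prod.fst e),
    card_image_of_injective _ (fun _ _ e => congrArg Prod.snd e), card_powerset] at e3
  have e4 : ((Pr T (dg T)).card : ℝ) + 1 = 2 ^ T.card + 2 ^ T.card := by exact_mod_cast e3
  rw [nn, N0, pow_succ]
  linarith

end Eq

section CB


section
variable {α : Type} [Fintype α] {T U : Finset α} {Q Q' : α → α → Prop}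

/-- the top level -/
def uu_CB (T : Finset α) (Q : α → α → Prop) : Finset α := T.filter fun b => ∃ a, a ≠ b ∧ Q a b

theorem str_CB (h : Q ∈ QO T) (hne : Q ≠ dg T) (hU : Spl Q U T) :
    Spl Q (uu_CB T Q) T ∧ (uu_CB T Q).Nonempty ∧ (T \ uu_CB T Q).Nonempty := by
  obtain ⟨h1, h2, -⟩ := mem_QO.1 h
  obtain ⟨a0, b0, hab, hQ⟩ : ∃ a b, a ≠ b ∧ Q a b := by
    by_contra hc
    push Not at hc
    refine hne (funext₂ fun a b => propext ⟨fun e => ⟨by_contra fun n => hc a b n e,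
      (h1 a b e).1⟩, fun e => e.1 ▸ h2 a e.2⟩)
  have h3 := (hU a0 (h1 _ _ hQ).1 b0 (h1 _ _ hQ).2 hab).1 hQ
  have key : ∀ b ∈ T, (b ∈ uu_CB T Q ↔ b ∈ U) := fun b hb => by
    rw [uu_CB, mem_filter]
    refine ⟨fun ⟨_, a, n, e⟩ => ((hU a (h1 _ _ e).1 b hb n).1 e).2, fun e => ?_⟩
    have n : a0 ≠ b := fun n => h3.1 (n ▸ e)
    exact ⟨hb, a0, n, (hU a0 (h1 _ _ hQ).1 b hb n).2 ⟨h3.1, e⟩⟩
  refine ⟨fun a ha b hb n => ?_, ⟨b0, (key b0 (h1 _ _ hQ).2).2 h3.2⟩,
    ⟨a0, mem_sdiff.2 ⟨(h1 _ _ hQ).1, fun e => h3.1 ((key a0 (h1 _ _ hQ).1).1 e)⟩⟩⟩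
  rw [key a ha, key b hb]
  exact hU a ha b hb n

theorem inj_CB (h : Q ∈ QO T) (h' : Q' ∈ QO T) (hU : Spl Q U T) (hU' : Spl Q' U T) : Q = Q' := by
  have key : ∀ {Q Q' : α → α → Prop}, Q ∈ QO T → Q' ∈ QO T → Spl Q U T → Spl Q' U T →
      ∀ a b, Q a b → Q' a b := fun h h' hU hU' a b e => by
    obtain ⟨ha, hb⟩ := (mem_QO.1 h).1 a b e
    by_cases n : a = b
    · exact n ▸ (mem_QO.1 h').2.1 a ha
    · exact (hU' a ha b hb n).2 ((hU a ha b hb n).1 e)
  exact funext₂ fun a b => propext ⟨key h h' hU hU' a b, key h' h hU' hU a b⟩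

theorem cnt_CB (hN : SNN) (h : Q ∈ QO T) (hU : Spl Q U T) :
    nn T Q + 2 ≤ 2 ^ T.card + (2 ^ U.card + 2 ^ (T \ U).card) := by
  have hA : Anti Q := fun a b e f => by_contra fun n => by
    obtain ⟨ha, hb⟩ := (mem_QO.1 h).1 a b e
    exact ((hU b hb a ha (Ne.symm n)).1 f).1 ((hU a ha b hb n).1 e).2
  have h1 := hN α T Q h hA
  have h2 : (Gd T Q).card ≤ 2 ^ T.card := (card_filter_le _ _).trans_eq (card_powerset T)
  have h3 : Zs T Q ∅ ⊆ U.powerset ∪ (T \ U).powerset := fun Z hZ => by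
    obtain ⟨h4, h5⟩ := mem_Zs.1 hZ
    rw [mem_union, mem_powerset, mem_powerset]
    by_cases h6 : Z ⊆ U
    · exact Or.inl h6
    · obtain ⟨a, ha, ha'⟩ := not_subset.1 h6
      refine Or.inr fun b hb => mem_sdiff.2 ⟨h4 hb, fun hb' => ?_⟩
      have n : a ≠ b := fun n => ha' (n ▸ hb')
      exact notMem_empty _ ((h5 a ha b hb n).1 ((hU a (h4 ha) b (h4 hb) n).2 ⟨ha', hb'⟩)).2
  have h4 := card_union_add_card_inter U.powerset (T \ U).powerset
  have h5 : 0 < (U.powerset ∩ (T \ U).powerset).card := card_pos.2 ⟨∅, by simp⟩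
  have h6 := card_le_card h3
  rw [card_powerset, card_powerset] at h4
  omega

end

theorem sCB (hN : SNN) : SCB := by
  intro α _ T m s hm hs
  set F := (QO T).filter (fun Q => Q ≠ dg T ∧ ∃ U, Spl Q U T) with hF
  have h0 : ∀ Q ∈ F, Q ∈ QO T ∧ Spl Q (uu_CB T Q) T ∧ (uu_CB T Q).Nonempty ∧
      (T \ uu_CB T Q).Nonempty := fun Q hQ => by
    obtain ⟨h1, h2, U, h3⟩ := mem_filter.1 hQ
    exact ⟨h1, str_CB h1 h2 h3⟩
  have hsub : ∀ Q, uu_CB T Q ⊆ T := fun Q => filter_subset _ _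
  have hinj : Set.InjOn (uu_CB T) F := fun Q hQ Q' hQ' e =>
    inj_CB (h0 Q hQ).1 (h0 Q' hQ').1 (h0 Q hQ).2.1 (e ▸ (h0 Q' hQ').2.1)
  have hinj' : Set.InjOn (fun Q => T \ uu_CB T Q) F := fun Q hQ Q' hQ' e => hinj hQ hQ' (by
    rw [← Finset.sdiff_sdiff_eq_self (hsub Q), ← Finset.sdiff_sdiff_eq_self (hsub Q')]
    exact congrArg (fun Z => T \ Z) e)
  have hb : ∀ Q ∈ F, (nn T Q : ℝ) + 2 ≤
      2 ^ T.card + (2 ^ (uu_CB T Q).card + 2 ^ (T \ uu_CB T Q).card) := fun Q hQ => by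
    exact_mod_cast cnt_CB hN (h0 Q hQ).1 (h0 Q hQ).2.1
  have hp : ∀ Q, (2 : ℝ) ^ (uu_CB T Q).card * 2 ^ (T \ uu_CB T Q).card = 2 ^ T.card := fun Q => by
    rw [← pow_add, add_comm, card_sdiff_add_card_eq_card (hsub Q)]
  have hT : (1 : ℝ) ≤ 2 ^ T.card := one_le_pow₀ one_le_two
  have hN0 : N0 T.card = 2 * 2 ^ T.card - 1 := by rw [N0]; ring
  have hN1 : 0 ≤ N0 T.card := by linarith
  have hm0 : (0 : ℝ) < m := by exact_mod_cast hm
  have b1 : ∀ Q ∈ F, (nn T Q : ℝ) ^ m ≤ (6 / 7) ^ m * N0 T.card ^ m := fun Q hQ => by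
    rw [← mul_pow]
    refine pow_le_pow_left₀ (Nat.cast_nonneg _) ?_ m
    have x2 : (2 : ℝ) ^ 1 ≤ 2 ^ (uu_CB T Q).card :=
      pow_le_pow_right₀ one_le_two (card_pos.2 (h0 Q hQ).2.2.1)
    have y2 : (2 : ℝ) ^ 1 ≤ 2 ^ (T \ uu_CB T Q).card :=
      pow_le_pow_right₀ one_le_two (card_pos.2 (h0 Q hQ).2.2.2)
    have := hb Q hQ
    have := hp Q
    nlinarith [mul_nonneg (sub_nonneg.2 x2) (sub_nonneg.2 y2)]
  have b2 : ∀ Q ∈ F, ¬ ((uu_CB T Q).card ≤ s ∨ (T \ uu_CB T Q).card ≤ s) →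
      (nn T Q : ℝ) ^ m ≤ 3 / 2 ^ m * N0 T.card ^ m := fun Q hQ hc => by
    have hs' : 8 * (m : ℝ) ≤ 2 ^ (s + 1) := by
      have : (4 : ℝ) * m ≤ 2 ^ s := by exact_mod_cast hs
      rw [pow_succ]; linarith
    have x2 : 8 * (m : ℝ) ≤ 2 ^ (uu_CB T Q).card :=
      hs'.trans (pow_le_pow_right₀ one_le_two (by omega))
    have y2 : 8 * (m : ℝ) ≤ 2 ^ (T \ uu_CB T Q).card :=
      hs'.trans (pow_le_pow_right₀ one_le_two (by omega))
    have e1 := mul_le_mul_of_nonneg_right x2 (by positivity : (0 : ℝ) ≤ 2 ^ (T \ uu_CB T Q).card)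
    have e2 := mul_le_mul_of_nonneg_left y2 (by positivity : (0 : ℝ) ≤ 2 ^ (uu_CB T Q).card)
    rw [hp Q] at e1 e2
    have e3 : (nn T Q : ℝ) ≤ (1 / m + 1) / 2 * N0 T.card := by
      have e4 := mul_le_mul_of_nonneg_left (hb Q hQ) hm0.le
      rw [show (1 / (m : ℝ) + 1) / 2 * N0 T.card = (1 + m) * N0 T.card / (2 * m) by field_simp,
        le_div_iff₀ (by positivity), hN0]
      nlinarith
    have e5 : (1 / (m : ℝ) + 1) ^ m ≤ 3 := by
      refine (pow_le_pow_left₀ (by positivity) (Real.add_one_le_exp _) m).trans ?_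
      rw [← Real.exp_nat_mul, mul_one_div_cancel hm0.ne']
      exact Real.exp_one_lt_d9.le.trans (by norm_num)
    refine (pow_le_pow_left₀ (Nat.cast_nonneg _) e3 m).trans ?_
    rw [mul_pow, div_pow]
    gcongr
  have c1 : ((F.filter fun Q => (uu_CB T Q).card ≤ s ∨ (T \ uu_CB T Q).card ≤ s).card : ℝ) ≤
      2 * (small α (2 * s + 1)).card := by
    have a1 : (F.filter fun Q => (uu_CB T Q).card ≤ s).card ≤ (small α (2 * s + 1)).card :=
      card_le_card_of_injOn (uu_CB T) (fun Q hQ => by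
        have := (mem_filter.1 hQ).2
        exact mem_coe.2 (mem_small.2 (by omega))) (hinj.mono (coe_subset.2 (filter_subset _ _)))
    have a2 : (F.filter fun Q => (T \ uu_CB T Q).card ≤ s).card ≤ (small α (2 * s + 1)).card :=
      card_le_card_of_injOn (fun Q => T \ uu_CB T Q) (fun Q hQ => by
        have := (mem_filter.1 hQ).2
        exact mem_coe.2 (mem_small.2 (by beta_reduce; omega)))
        (hinj'.mono (coe_subset.2 (filter_subset _ _)))
    rw [filter_or]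
    have a3 := (card_union_le _ _).trans (add_le_add a1 a2)
    rw [← two_mul] at a3
    exact_mod_cast a3
  have c2 : ((F.filter fun Q => ¬ ((uu_CB T Q).card ≤ s ∨ (T \ uu_CB T Q).card ≤ s)).card : ℝ) ≤
      2 ^ T.card := by
    have a1 := card_le_card_of_injOn (s := F) (t := T.powerset) (uu_CB T)
      (fun Q _ => mem_coe.2 (mem_powerset.2 (hsub Q))) hinj
    rw [card_powerset] at a1
    exact_mod_cast (card_filter_le _ _).trans a1
  rw [← sum_filter_add_sum_filter_not F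
    fun Q => (uu_CB T Q).card ≤ s ∨ (T \ uu_CB T Q).card ≤ s, add_mul]
  refine add_le_add ((sum_le_card_nsmul _ _ _ fun Q hQ => b1 Q (mem_filter.1 hQ).1).trans ?_)
    ((sum_le_card_nsmul _ _ _ fun Q hQ => b2 Q (mem_filter.1 hQ).1 (mem_filter.1 hQ).2).trans ?_)
  · rw [nsmul_eq_mul]
    exact (mul_le_mul_of_nonneg_right c1 (by positivity)).trans_eq (by ring)
  · rw [nsmul_eq_mul]
    exact (mul_le_mul_of_nonneg_right c2 (by positivity)).trans_eq (by ring)

end CB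

section Glob


theorem exp_Glob (K t d k : ℕ) (h : 4 * t + d ≤ K + k * d) :
    (2 : ℝ) ^ (t * t + 4 * t) * ((2 ^ t / 2 ^ k) ^ d) ≤
      2 ^ K * 2 ^ t / 2 ^ (t + d) * (2 ^ t) ^ (t + d) := by
  rw [div_pow, ← mul_div_assoc, div_mul_eq_mul_div, div_le_div_iff₀ (by positivity)
    (by positivity)]
  simp only [← pow_mul, ← pow_add]
  exact pow_le_pow_right₀ one_le_two (by nlinarith)

theorem aux_Glob (hB : SBij) (hI : SIb) (K : ℕ) : ∃ C : ℝ, 0 ≤ C ∧
    ∀ (α : Type) [Fintype α] (T : Finset α) (d k : ℕ), 2 * T.card ≤ Fintype.card α →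
    4 * T.card + d ≤ K + k * d →
    ∑ Q ∈ (QO T).filter (fun Q => 2 ^ k * nn T Q ≤ 2 ^ T.card), (nn T Q : ℝ) ^ (T.card + d) ≤
      C * 2 ^ T.card / 2 ^ (T.card + d) * N0 T.card ^ (T.card + d) := by
  obtain ⟨C, hC, hI⟩ := hI
  refine ⟨C * 2 ^ K, by positivity, fun α _ T d k h1 h2 => ?_⟩
  obtain ⟨V, hTV, -, hV⟩ := exists_subsuperset_card_eq (n := 2 * T.card) T.subset_univ
    (by omega) (by rwa [card_univ])
  have h3 : Sm T T.card ≤ I (2 * T.card) := by
    have := hB α T V hTV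
    rw [card_sdiff_of_subset hTV, hV, show 2 * T.card - T.card = T.card by omega] at this
    rw [← this, ← hV]
    exact (card_filter_le _ _).trans (card_idemOn_le V)
  have h4 : (Sm T T.card : ℝ) ≤ C * 2 ^ (T.card * T.card + 4 * T.card) :=
    le_trans (by exact_mod_cast h3) (hI _)
  have h5 : (2 : ℝ) ^ T.card ≤ N0 T.card := by
    have : (1 : ℝ) ≤ 2 ^ T.card := one_le_pow₀ one_le_two
    rw [N0, pow_succ]; linarith
  calc _ ≤ ∑ Q ∈ (QO T).filter (fun Q => 2 ^ k * nn T Q ≤ 2 ^ T.card),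
        (nn T Q : ℝ) ^ T.card * (2 ^ T.card / 2 ^ k) ^ d := by
        refine sum_le_sum fun Q hQ => ?_
        rw [pow_add]
        refine mul_le_mul_of_nonneg_left (pow_le_pow_left₀ (by positivity) ?_ _) (by positivity)
        rw [le_div_iff₀' (by positivity)]
        exact_mod_cast (mem_filter.1 hQ).2
    _ ≤ ∑ Q ∈ QO T, (nn T Q : ℝ) ^ T.card * (2 ^ T.card / 2 ^ k) ^ d :=
        sum_le_sum_of_subset_of_nonneg (filter_subset _ _) fun _ _ _ => by positivity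
    _ = Sm T T.card * (2 ^ T.card / 2 ^ k) ^ d := by rw [← sum_mul, Sm]; push_cast; rfl
    _ ≤ C * (2 ^ (T.card * T.card + 4 * T.card) * (2 ^ T.card / 2 ^ k) ^ d) := by
        rw [← mul_assoc]
        exact mul_le_mul_of_nonneg_right h4 (by positivity)
    _ ≤ C * (2 ^ K * 2 ^ T.card / 2 ^ (T.card + d) * (2 ^ T.card) ^ (T.card + d)) :=
        mul_le_mul_of_nonneg_left (exp_Glob K _ d k h2) hC
    _ = C * 2 ^ K * 2 ^ T.card / 2 ^ (T.card + d) * (2 ^ T.card) ^ (T.card + d) := by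
        rw [← mul_assoc, ← mul_div_assoc, ← mul_assoc]
    _ ≤ _ := mul_le_mul_of_nonneg_left (pow_le_pow_left₀ (by positivity) h5 _) (by positivity)

theorem sGlob (hB : SBij) (hI : SIb) : SGlob := by
  obtain ⟨C, hC, h⟩ := aux_Glob hB hI 16000
  refine ⟨C, hC, fun α _ T m k h1 h2 h3 h4 => ?_⟩
  obtain ⟨d, rfl⟩ : ∃ d, m = T.card + d := ⟨m - T.card, by omega⟩
  refine h α T d k h1 ?_
  obtain ⟨j, rfl⟩ : ∃ j, k = j + 1 := ⟨k - 1, by omega⟩
  have : j * 16000 ≤ j * d := Nat.mul_le_mul_left j (by omega)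
  rw [add_mul, one_mul]; omega

theorem two_pow_Glob (j : ℕ) : 32000 * (20 + j + 1) ≤ 2 ^ (20 + j) := by
  induction j with
  | zero => norm_num
  | succ j ih => rw [← add_assoc, pow_succ]; omega

theorem pow_Glob : (200 : ℝ) ≤ (1011 / 1000) ^ 500 := by
  have h : (29 / 10 : ℝ) ≤ (1011 / 1000) ^ 100 := by norm_num
  calc (200 : ℝ) ≤ (29 / 10) ^ 5 := by norm_num
    _ ≤ ((1011 / 1000) ^ 100) ^ 5 := pow_le_pow_left₀ (by norm_num) h 5
    _ = _ := by rw [← pow_mul]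

theorem sNum : SNum := by
  intro ε hε
  obtain ⟨ρ, hρ⟩ : ∃ ρ : ℝ, ρ = (201 / 200) ^ 4 * (1011 / 1000) * (19 / 20) := ⟨_, rfl⟩
  have h0 : 0 ≤ ρ := by rw [hρ]; positivity
  have h1 : ρ < 1 := by rw [hρ]; norm_num
  have h2 := ((tendsto_self_mul_const_pow_of_lt_one h0 h1).add
    (tendsto_pow_atTop_nhds_zero_of_lt_one h0 h1)).const_mul 40000
  rw [add_zero, mul_zero] at h2
  obtain ⟨m₁, hm₁⟩ := Filter.eventually_atTop.1 (h2.eventually (gt_mem_nhds hε))
  refine ⟨max m₁ 80000, fun m hm => ⟨m / 2000, ?_, fun α _ hα => ?_⟩⟩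
  · obtain ⟨j, hj⟩ : ∃ j, m / 4000 = 20 + j := ⟨m / 4000 - 20, by
      have := (le_max_right _ _).trans hm; omega⟩
    have h3 := two_pow_Glob j
    calc 4 * m * 2 ^ (m / 4000 + 1) = 8 * m * 2 ^ (20 + j) := by rw [hj, pow_succ]; ring
      _ ≤ 2 ^ (20 + j) * 2 ^ (20 + j) := Nat.mul_le_mul_right _ (by omega)
      _ ≤ _ := by rw [← pow_add]; exact Nat.pow_le_pow_right two_pos (by omega)
  · refine le_trans ?_ (hm₁ m ((le_max_left _ _).trans hm)).le
    obtain ⟨s, hs⟩ : ∃ s, m / 2000 = s := ⟨_, rfl⟩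
    rw [hs]
    have h3 := card_small_le_entropy (α := α) (2 * s + 1) (1 / 200) (by norm_num) (by norm_num)
    rw [one_div_pow, ← div_eq_mul_one_div, div_le_iff₀ (by positivity)] at h3
    have h4 : ((small α (2 * s + 1)).card : ℝ) ≤ (201 / 200) ^ (2 * m) * 200 ^ (2 * s + 1) :=
      h3.trans (mul_le_mul_of_nonneg_right (by
        rw [show (1 + 1 / 200 : ℝ) = 201 / 200 by norm_num]
        exact pow_le_pow_right₀ (by norm_num) hα) (by positivity))
    have h5 : (200 : ℝ) ^ (4 * s) ≤ (1011 / 1000) ^ m := by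
      refine (pow_le_pow_left₀ (by norm_num) pow_Glob _).trans ?_
      rw [← pow_mul]
      exact pow_le_pow_right₀ (by norm_num) (by omega)
    have h6 : ((small α (2 * s + 1)).card : ℝ) ^ 2 ≤
        40000 * (((201 / 200) ^ 4) ^ m * (1011 / 1000) ^ m) := by
      refine (pow_le_pow_left₀ (by positivity) h4 2).trans ?_
      have e : (((201 / 200 : ℝ)) ^ (2 * m) * 200 ^ (2 * s + 1)) ^ 2 =
          40000 * (((201 / 200) ^ 4) ^ m * 200 ^ (4 * s)) := by
        rw [mul_pow, ← pow_mul, ← pow_mul, ← pow_mul, show (2 * s + 1) * 2 = 4 * s + 2 by ring,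
          pow_add, show 2 * m * 2 = 4 * m by ring]
        norm_num
        ring
      rw [e]
      gcongr
    calc _ ≤ (m + 1 : ℝ) * (40000 * (((201 / 200) ^ 4) ^ m * (1011 / 1000) ^ m)) *
          (19 / 20) ^ m := by gcongr
      _ = _ := by rw [hρ, mul_pow, mul_pow]; ring

end Glob

section Rec


theorem union_Rec {β : Type} [DecidableEq β] (f : β → ℝ) (hf : ∀ x, 0 ≤ f x) (A B : Finset β) :
    ∑ x ∈ A ∪ B, f x ≤ ∑ x ∈ A, f x + ∑ x ∈ B, f x := by
  have := sum_union_inter (s₁ := A) (s₂ := B) (f := f)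
  have := sum_nonneg (s := A ∩ B) fun x _ => hf x
  linarith

theorem biUnion_Rec {β ι : Type} [DecidableEq β] (f : β → ℝ) (hf : ∀ x, 0 ≤ f x) (S : Finset ι)
    (B : ι → Finset β) : ∑ x ∈ S.biUnion B, f x ≤ ∑ i ∈ S, ∑ x ∈ B i, f x := by
  induction S using Finset.induction_on with
  | empty => simp
  | insert i S hi ih =>
    rw [biUnion_insert, sum_insert hi]
    exact (union_Rec f hf _ _).trans (by linarith)

theorem sRec (hP : SPick) (hX : SExt) (hE : SEq) (hD : SDg) (hC : SCB) (hG : SGlob) : SRec := by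
  obtain ⟨C, C0, hG⟩ := hG
  refine ⟨C + 3, by linarith, fun α _ T m k s h1 h2 h3 h4 h5 => ?_⟩
  have hm : 1 ≤ m := by omega
  have h6 : 4 * m ≤ 2 ^ s := le_trans (Nat.le_mul_of_pos_right _ (by positivity)) h5
  have hf : ∀ Q : α → α → Prop, (0 : ℝ) ≤ (nn T Q : ℝ) ^ m := fun Q => by positivity
  have cov : QO T ⊆ ((({dg T} ∪ (QO T).filter fun Q => Q ≠ dg T ∧ ∃ U, Spl Q U T) ∪
      (QO T).filter fun Q => ¬ Anti Q) ∪ (QO T).filter fun Q => 2 ^ k * nn T Q ≤ 2 ^ T.card) ∪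
      T.biUnion fun v => (QO (T.erase v)).biUnion fun P => (QO T).filter fun Q =>
        Anti Q ∧ del v Q = P ∧ 10 * nn T Q ≤ 19 * nn (T.erase v) P ∧
          2 ^ T.card < 2 ^ k * nn T Q := by
    intro Q hQ
    simp only [mem_union, mem_filter, mem_singleton, mem_biUnion, hQ, true_and]
    by_cases a1 : Q = dg T
    · exact Or.inl (Or.inl (Or.inl (Or.inl a1)))
    by_cases a2 : ∃ U, Spl Q U T
    · exact Or.inl (Or.inl (Or.inl (Or.inr ⟨a1, a2⟩)))
    by_cases a3 : Anti Q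
    swap
    · exact Or.inl (Or.inl (Or.inr a3))
    rcases le_or_gt (2 ^ k * nn T Q) (2 ^ T.card) with a4 | a4
    · exact Or.inl (Or.inr a4)
    obtain ⟨v, hv, a5⟩ := hP α T Q hQ a3 a2
    exact Or.inr ⟨v, hv, _, del_mem hQ v, a3, rfl, a5, a4⟩
  have e1 := hC α T m s hm h6
  have e2 : ∑ Q ∈ (QO T).filter (fun Q => ¬ Anti Q), (nn T Q : ℝ) ^ m ≤
      T.card * ∑ v ∈ T, (Sm (T.erase v) m : ℝ) := by exact_mod_cast hE α T m
  have e3 := hG α T m k h1 h2 h3 h4
  have e4 := (biUnion_Rec _ hf T _).trans (sum_le_sum fun v hv => (biUnion_Rec _ hf _ _).trans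
    (sum_le_sum fun P hP => hX α T m k s hm h5 v hv P hP))
  have e5 : ∀ v, ∑ P ∈ QO (T.erase v), (nn (T.erase v) P : ℝ) ^ m = Sm (T.erase v) m :=
    fun v => by simp [Sm]
  simp only [← mul_sum, e5] at e4
  have e6 : (T.card : ℝ) ≤ 2 ^ T.card := by exact_mod_cast Nat.lt_two_pow_self.le
  have e7 := mul_le_mul_of_nonneg_right e6
    (sum_nonneg (s := T) fun v _ => Nat.cast_nonneg (α := ℝ) (Sm (T.erase v) m))
  have e8 := ((sum_le_sum_of_subset_of_nonneg cov fun Q _ _ => hf Q).trans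
    (union_Rec _ hf _ _)).trans (add_le_add ((union_Rec _ hf _ _).trans (add_le_add
      ((union_Rec _ hf _ _).trans (add_le_add ((union_Rec _ hf _ _).trans
        (add_le_add le_rfl e1)) e2)) e3)) e4)
  rw [sum_singleton, hD α T] at e8
  have e9 : (Sm T m : ℝ) = ∑ Q ∈ QO T, (nn T Q : ℝ) ^ m := by simp [Sm]
  rw [e9]
  refine e8.trans ?_
  simp only [div_eq_mul_inv] at *
  linarith

end Rec

section Up


theorem N0_nonneg_Up (t : ℕ) : 0 ≤ N0 t := by
  have : (1 : ℝ) ≤ 2 ^ (t + 1) := one_le_pow₀ one_le_two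
  unfold N0
  linarith

theorem N0_pow_Up (j m : ℕ) : N0 j ^ m ≤ N0 (j + 1) ^ m / 2 ^ m := by
  rw [← div_pow]
  refine pow_le_pow_left₀ (N0_nonneg_Up j) ?_ m
  unfold N0
  rw [pow_succ _ (j + 1)]
  linarith

theorem gap_Up {t m K : ℕ} (h : ((t : ℝ) + 1) * 2 ^ t ≤ (1 / 2) ^ K * 2 ^ m) : t + K ≤ m := by
  have h1 : (2 : ℝ) ^ t ≤ ((t : ℝ) + 1) * 2 ^ t :=
    le_mul_of_one_le_left (by positivity) (by linarith [Nat.cast_nonneg (α := ℝ) t])
  have h2 : (2 : ℝ) ^ (t + K) ≤ 2 ^ m := by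
    have h3 := mul_le_mul_of_nonneg_right (h1.trans h) (show (0 : ℝ) ≤ 2 ^ K by positivity)
    rwa [← pow_add, mul_right_comm, ← mul_pow, one_div_mul_cancel two_ne_zero, one_pow,
      one_mul] at h3
  exact (pow_le_pow_iff_right₀ one_lt_two).1 h2

theorem sUp (hR : SRec) (hM : SNum) : SUp := by
  obtain ⟨C, hC, hR⟩ := hR
  intro ε hε
  obtain ⟨e, he0, he1, heε⟩ : ∃ e : ℝ, 0 < e ∧ e ≤ 1 ∧ e ≤ ε :=
    ⟨min ε 1, lt_min hε one_pos, min_le_right _ _, min_le_left _ _⟩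
  obtain ⟨m₀, hm₀⟩ := hM (e / 20) (by positivity)
  obtain ⟨η, hη0, hη1, hη2⟩ : ∃ η : ℝ, 0 < η ∧ (C + 8) * η ≤ e / 2 ∧
      ∀ t m : ℕ, ((t : ℝ) + 1) * 2 ^ t ≤ η * 2 ^ m → t + 16000 ≤ m := by
    generalize 16000 = K
    refine ⟨min (e / 2 / (C + 8)) ((1 / 2) ^ K), lt_min (by positivity) (by positivity), ?_,
      fun t m h => gap_Up (h.trans (mul_le_mul_of_nonneg_right (min_le_right _ _)
        (by positivity)))⟩
    rw [mul_comm]
    exact (le_div_iff₀ (by positivity)).1 (min_le_left _ _)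
  refine ⟨η, hη0, m₀, fun α _ T m hcard hm hT => ?_⟩
  have hg := hη2 _ _ hT
  obtain ⟨s, hs, hσ⟩ := hm₀ m hm
  replace hσ := hσ α (by omega)
  have σ1 : (1 : ℝ) ≤ (small α (2 * s + 1)).card := by
    exact_mod_cast card_pos.2 ⟨∅, mem_small.2 (by simp)⟩
  replace hR := fun (T₁ : Finset α) (h : T₁.card ≤ T.card) =>
    hR α T₁ m (m / 4000 + 1) s (by omega) (by omega) (by omega) (by omega) hs
  generalize ((small α (2 * s + 1)).card : ℝ) = σ at hσ σ1 hR
  have hm2 : (0 : ℝ) < 2 ^ m := by positivity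
  have a1 : σ * (6 / 7) ^ m ≤ σ ^ 2 * (19 / 20) ^ m :=
    mul_le_mul (by nlinarith) (pow_le_pow_left₀ (by norm_num) (by norm_num) m) (by positivity)
      (by positivity)
  have a2 : σ ^ 2 * (19 / 10) ^ m / 2 ^ m = σ ^ 2 * (19 / 20) ^ m := by
    rw [mul_div_assoc, ← div_pow]; norm_num
  have a3 : (0 : ℝ) ≤ σ ^ 2 * (19 / 20) ^ m := by positivity
  rw [mul_assoc] at hσ
  have key : ∀ j, j ≤ T.card → ∀ T₁ : Finset α, T₁.card = j →
      (Sm T₁ m : ℝ) ≤ (1 + e) * N0 j ^ m := by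
    intro j
    induction j using Nat.strong_induction_on with
    | _ j ih =>
      intro hj T₁ h1
      have h := hR T₁ (by omega)
      rw [h1] at h
      have hN : 0 ≤ N0 j ^ m := pow_nonneg (N0_nonneg_Up j) m
      have b1 : ∑ v ∈ T₁, (Sm (T₁.erase v) m : ℝ) ≤ j * (2 * (N0 j ^ m / 2 ^ m)) := by
        rw [← h1, ← nsmul_eq_mul]
        refine sum_le_card_nsmul _ _ _ fun v hv => ?_
        have c1 := card_erase_add_one hv
        refine (ih _ (by omega) (by omega) (T₁.erase v) rfl).trans ?_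
        rw [← c1]
        exact mul_le_mul (by linarith) (N0_pow_Up _ _) (pow_nonneg (N0_nonneg_Up _) m) zero_le_two
      have jt : (j : ℝ) ≤ T.card := by exact_mod_cast hj
      have jm : (j : ℝ) ≤ m + 1 := by exact_mod_cast (show j ≤ m + 1 by omega)
      have j0 : (0 : ℝ) ≤ j := Nat.cast_nonneg j
      have b2 : ((j : ℝ) + 1) * (2 ^ j / 2 ^ m) ≤ η := by
        rw [← mul_div_assoc, div_le_iff₀ hm2]
        exact (mul_le_mul (by linarith) (pow_le_pow_right₀ one_le_two hj) (by positivity)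
          (by positivity)).trans hT
      have b3 : (4 * 2 ^ j + 4 * σ ^ 2 * (19 / 10) ^ m) * (j * (2 * (N0 j ^ m / 2 ^ m))) =
          (8 * (j * (2 ^ j / 2 ^ m)) + 8 * (j * (σ ^ 2 * (19 / 20) ^ m))) * N0 j ^ m := by
        rw [← a2]; ring
      have b4 := mul_le_mul_of_nonneg_left b1
        (show (0 : ℝ) ≤ 4 * 2 ^ j + 4 * σ ^ 2 * (19 / 10) ^ m by positivity)
      rw [b3] at b4
      refine (h.trans (add_le_add le_rfl b4)).trans ?_
      rw [← add_mul, mul_div_assoc, mul_assoc 2 σ]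
      refine mul_le_mul_of_nonneg_right ?_ hN
      have x0 : (0 : ℝ) ≤ 2 ^ j / 2 ^ m := by positivity
      generalize (2 : ℝ) ^ j / 2 ^ m = x at b2 x0 ⊢
      generalize σ ^ 2 * (19 / 20 : ℝ) ^ m = S at a1 a3 hσ ⊢
      have d1 : C * x ≤ C * η := mul_le_mul_of_nonneg_left (by nlinarith) hC
      have d2 : j * S ≤ (m + 1) * S := mul_le_mul_of_nonneg_right jm a3
      have d3 : S ≤ (m + 1) * S :=
        le_mul_of_one_le_left a3 (by linarith [Nat.cast_nonneg (α := ℝ) m])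
      nlinarith
  exact (key _ le_rfl T rfl).trans
    (mul_le_mul_of_nonneg_right (by linarith) (pow_nonneg (N0_nonneg_Up _) m))

end Up

section Low


section aux
variable {α : Type} [Fintype α]

/-- the order in which the points of `A` lie below `v` -/
def star_Low (T : Finset α) (v : α) (A : Finset α) : α → α → Prop :=
  fun a b => (a = b ∧ a ∈ T) ∨ (a ∈ A ∧ b = v)

theorem mem_Low {T A : Finset α} {v : α} (hv : v ∈ T) (hA : A ⊆ T.erase v) :
    star_Low T v A ∈ QO T := by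
  refine mem_QO.2 ⟨?_, fun a ha => Or.inl ⟨rfl, ha⟩, ?_⟩
  · rintro a b (⟨rfl, h⟩ | ⟨h, rfl⟩)
    · exact ⟨h, h⟩
    · exact ⟨mem_of_mem_erase (hA h), hv⟩
  · rintro a b c (⟨rfl, _⟩ | ⟨h, rfl⟩) k
    · exact k
    · rcases k with ⟨rfl, _⟩ | ⟨_, rfl⟩
      · exact Or.inr ⟨h, rfl⟩
      · exact Or.inr ⟨h, rfl⟩

theorem nn_Low (T A : Finset α) (v : α) : 2 ^ T.card ≤ nn T (star_Low T v A) := by
  rw [← card_powerset]
  refine card_le_card_of_injOn (fun Z => if v ∈ Z then (∅, Z) else (Z, ∅)) ?_ ?_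
  · intro Z hZ
    have hZ' : Z ⊆ T := mem_powerset.1 hZ
    refine mem_coe.2 (mem_Pr.2 ?_)
    by_cases h : v ∈ Z
    · simp only [if_pos h]
      refine ⟨empty_subset _, hZ', disjoint_empty_left _, fun _ _ _ k => absurd k (notMem_empty _),
        ?_, fun _ k => absurd k (notMem_empty _)⟩
      rintro a b (⟨rfl, _⟩ | ⟨_, rfl⟩) k
      · exact k
      · exact h
    · simp only [if_neg h]
      refine ⟨hZ', empty_subset _, disjoint_empty_right _, ?_,
        fun _ _ _ k => absurd k (notMem_empty _), fun _ _ _ k => absurd k (notMem_empty _)⟩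
      rintro a b (⟨rfl, _⟩ | ⟨_, rfl⟩) k
      · exact k
      · exact absurd k h
  · intro Z _ Y _ h
    have key : ∀ X : Finset α, (if v ∈ X then ((∅ : Finset α), X) else (X, ∅)).1 ∪
        (if v ∈ X then ((∅ : Finset α), X) else (X, ∅)).2 = X := fun X => by
      split_ifs <;> simp
    rw [← key Z, ← key Y]
    exact congrArg (fun p : Finset α × Finset α => p.1 ∪ p.2) h

/-- the parameters -/
def par_Low (T : Finset α) : Finset (Σ _ : α, Finset α) :=
  T.sigma fun v => (T.erase v).powerset.erase ∅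

theorem mem_par_Low {T : Finset α} {p : Σ _ : α, Finset α} (h : p ∈ par_Low T) :
    p.1 ∈ T ∧ p.2 ⊆ T.erase p.1 ∧ p.2.Nonempty := by
  obtain ⟨h1, h2⟩ := mem_sigma.1 h
  exact ⟨h1, mem_powerset.1 (mem_of_mem_erase h2), nonempty_iff_ne_empty.2 (ne_of_mem_erase h2)⟩

theorem card_par_Low (T : Finset α) :
    ((par_Low T).card : ℝ) = T.card * (2 ^ T.card / 2 - 1) := by
  rw [par_Low, card_sigma, Nat.cast_sum, sum_congr rfl (g := fun _ => (2 ^ T.card / 2 - 1 : ℝ)),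
    sum_const, nsmul_eq_mul]
  intro v hv
  rw [cast_card_erase_of_mem (empty_mem_powerset _), card_powerset, ← card_erase_add_one hv,
    pow_succ]
  push_cast
  ring

theorem sub_Low {T A B : Finset α} {v w : α} (hA : A ⊆ T.erase v)
    (h : star_Low T v A = star_Low T w B) {a : α} (ha : a ∈ A) : a ∈ B ∧ v = w := by
  have : star_Low T w B a v := h ▸ Or.inr ⟨ha, rfl⟩
  exact this.resolve_left fun k => ne_of_mem_erase (hA ha) k.1

theorem inj_Low (T : Finset α) :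
    Set.InjOn (fun p : Σ _ : α, Finset α => star_Low T p.1 p.2) (par_Low T) := by
  rintro ⟨v, A⟩ hp ⟨w, B⟩ hq h
  obtain ⟨_, a2, a, ha⟩ := mem_par_Low hp
  obtain ⟨_, b2, _⟩ := mem_par_Low hq
  obtain rfl : v = w := (sub_Low a2 h ha).2
  obtain rfl : A = B :=
    Subset.antisymm (fun _ k => (sub_Low a2 h k).1) fun _ k => (sub_Low b2 h.symm k).1
  rfl

theorem sum_Low (T : Finset α) (m : ℕ) :
    nn T (dg T) ^ m + (par_Low T).card * (2 ^ T.card) ^ m ≤ Sm T m := by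
  have h1 : dg T ∉ (par_Low T).image fun p => star_Low T p.1 p.2 := fun h => by
    obtain ⟨p, hp, e⟩ := mem_image.1 h
    obtain ⟨_, a2, a, ha⟩ := mem_par_Low hp
    have : dg T a p.1 := e ▸ Or.inr ⟨ha, rfl⟩
    exact ne_of_mem_erase (a2 ha) this.1
  have h2 : insert (dg T) ((par_Low T).image fun p => star_Low T p.1 p.2) ⊆ QO T := by
    refine insert_subset (dg_mem T) fun Q h => ?_
    obtain ⟨p, hp, rfl⟩ := mem_image.1 h
    exact mem_Low (mem_par_Low hp).1 (mem_par_Low hp).2.1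
  refine le_trans ?_ (sum_le_sum_of_subset h2)
  rw [sum_insert h1, sum_image (inj_Low T)]
  refine Nat.add_le_add_left ?_ _
  rw [← smul_eq_mul]
  exact card_nsmul_le_sum _ _ _ fun p _ => Nat.pow_le_pow_left (nn_Low T p.2 p.1) m

end aux

theorem sLow (hD : SDg) : SLow := by
  intro α _ T m
  have h : ((nn T (dg T) ^ m + (par_Low T).card * (2 ^ T.card) ^ m : ℕ) : ℝ) ≤ Sm T m :=
    Nat.cast_le.2 (sum_Low T m)
  refine le_trans ?_ h
  push_cast
  rw [hD α T, ← card_par_Low, add_mul, one_mul, div_mul_eq_mul_div, mul_div_assoc, ← div_pow]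
  have h0 : 0 ≤ N0 T.card / 2 := by rw [← hD α T]; positivity
  have h1 : N0 T.card / 2 ≤ 2 ^ T.card := by rw [N0, pow_succ]; linarith
  gcongr

end Low

section Fin


theorem cnt_Fin (hB : SBij) (α : Type) [Fintype α] (t : ℕ) :
    Nat.card {R : α → α → Prop // Idem R ∧ (univ.filter fun x => R x x).card = t} =
      ∑ T ∈ powersetCard t (univ : Finset α), Sm T (Fintype.card α - t) := by
  rw [Nat.card_eq_fintype_card, Fintype.card_subtype,
    card_eq_sum_card_fiberwise (f := fun R : α → α → Prop => univ.filter fun x => R x x)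
    (t := powersetCard t univ) fun R hR => by
      simp only [coe_filter, mem_univ, true_and, Set.mem_ofPred_eq] at hR
      exact mem_coe.2 (mem_powersetCard.2 ⟨subset_univ _, hR.2⟩)]
  refine sum_congr rfl fun T hT => ?_
  have h := (mem_powersetCard.1 hT).2
  rw [← h, ← card_univ_sdiff, ← hB α T univ (subset_univ _)]
  congr 1
  ext R
  simp only [mem_filter, mem_univ, true_and, idemOn, and_self, implies_true, and_true]
  constructor
  · rintro ⟨⟨a, -⟩, b⟩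
    exact ⟨a, fun x => by simp [← b]⟩
  · rintro ⟨a, b⟩
    have : (univ.filter fun x => R x x) = T := by ext x; simp [b]
    exact ⟨⟨a, by rw [this]⟩, this⟩

theorem sCnt (hB : SBij) : SCnt := by
  intro n t
  have := cnt_Fin hB (Fin n) t
  rw [Fintype.card_fin] at this
  rw [← this]
  refine Nat.card_congr (Equiv.subtypeEquiv
    ⟨fun A i j => A i j = true, fun R => Matrix.of fun i j => decide (R i j), ?_, ?_⟩ ?_)
  · intro A; ext i j; simp
  · intro R; funext i j; simp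
  · intro A
    simp only [Equiv.coe_fn_mk, Idem]
    refine and_congr (forall_congr' fun i => forall_congr' fun j => ?_) (by congr!)
    have : ((Finset.univ.sup fun k => min (A i k) (A k j)) = true) ↔
        ∃ c, A i c = true ∧ A c j = true := by
      rw [show (true : Bool) = ⊤ from rfl, Finset.sup_eq_top_iff]
      simp
    rw [← this]
    exact Bool.eq_iff_iff

theorem N0_pos_Fin (t : ℕ) : 0 < N0 t := by
  have : (1 : ℝ) < 2 ^ (t + 1) := one_lt_pow₀ one_lt_two (by omega)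
  unfold N0
  linarith

theorem arith_Fin (t : ℕ) {x : ℝ} (hx : 1 ≤ x) :
    0 ≤ (t : ℝ) * (2 ^ t / 2 - 1) / x ∧
    (t : ℝ) * 2 ^ t / x ≤ 4 * (t * (2 ^ t / 2 - 1) / x) + 4 / (2 ^ t * x) ∧
    ((t : ℝ) + 1) * 2 ^ t / x ≤ 2 * (t * 2 ^ t / x) + 1 / (2 ^ t * x) ∧
    1 / x ≤ ((t : ℝ) + 1) * 2 ^ t / x := by
  have x0 : 0 < x := by linarith
  have p : (1 : ℝ) ≤ 2 ^ t := one_le_pow₀ one_le_two
  have t0 : (0 : ℝ) ≤ t := Nat.cast_nonneg t
  refine ⟨?_, ?_, ?_, by gcongr; nlinarith⟩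
  · rcases t with _ | t
    · simp
    · have : (1 : ℝ) ≤ 2 ^ t := one_le_pow₀ one_le_two
      refine div_nonneg (mul_nonneg t0 ?_) x0.le
      rw [pow_succ]
      linarith
  · rcases t with _ | _ | t
    · simp; positivity
    · norm_num
      exact le_of_eq (by field_simp; norm_num)
    · have : (1 : ℝ) ≤ 2 ^ t := one_le_pow₀ one_le_two
      refine le_trans ?_ (le_add_of_nonneg_right (by positivity))
      rw [← mul_div_assoc]
      refine div_le_div_of_nonneg_right ?_ x0.le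
      have : (4 : ℝ) ≤ 2 ^ (t + 1 + 1) := by rw [pow_succ, pow_succ]; linarith
      nlinarith
  · rcases t with _ | t
    · simp
    · refine le_trans ?_ (le_add_of_nonneg_right (by positivity))
      rw [← mul_div_assoc]
      refine div_le_div_of_nonneg_right ?_ x0.le
      have : (1 : ℝ) ≤ (t + 1 : ℕ) := by exact_mod_cast Nat.succ_pos t
      nlinarith

open Filter in
theorem sFin (hU : SUp) (hL : SLow) : SFin := by
  intro t ht
  have hn : ∀ n, (2 : ℝ) ^ n = 2 ^ t n * 2 ^ (n - t n) := fun n => by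
    rw [← pow_add, Nat.add_sub_cancel' (ht n)]
  have hl : ∀ n, (t n : ℝ) * 4 ^ t n / 2 ^ n = t n * 2 ^ t n / 2 ^ (n - t n) := fun n => by
    rw [hn n, show (4 : ℝ) = 2 * 2 by norm_num, mul_pow]
    field_simp
  have hd : ∀ n, (0 : ℝ) < n.choose (t n) * N0 (t n) ^ (n - t n) := fun n =>
    mul_pos (by exact_mod_cast Nat.choose_pos (ht n)) (pow_pos (N0_pos_Fin _) _)
  have ha := fun n => arith_Fin (t n) (one_le_pow₀ one_le_two : (1 : ℝ) ≤ 2 ^ (n - t n))
  simp only [← hn] at ha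
  simp only [hl]
  set ρ : ℕ → ℝ := fun n => ((∑ T ∈ powersetCard (t n) (univ : Finset (Fin n)),
    Sm T (n - t n) : ℕ) : ℝ) / (n.choose (t n) * N0 (t n) ^ (n - t n)) with hρ
  change Tendsto ρ atTop (nhds 1) ↔ _
  have low : ∀ n, 1 + (t n : ℝ) * (2 ^ t n / 2 - 1) / 2 ^ (n - t n) ≤ ρ n := fun n => by
    rw [hρ, le_div_iff₀ (hd n), Nat.cast_sum]
    refine le_trans (le_of_eq ?_) (card_nsmul_le_sum _ _
      ((1 + (t n : ℝ) * (2 ^ t n / 2 - 1) / 2 ^ (n - t n)) * N0 (t n) ^ (n - t n)) fun T hT => ?_)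
    · rw [card_powersetCard, card_univ, Fintype.card_fin, nsmul_eq_mul]
      ring
    · have := hL _ T (n - t n)
      rwa [(mem_powersetCard.1 hT).2] at this
  have z : Tendsto (fun n : ℕ => 1 / (2 : ℝ) ^ n) atTop (nhds 0) :=
    tendsto_const_nhds.div_atTop (tendsto_pow_atTop_atTop_of_one_lt one_lt_two)
  constructor
  · intro h
    have := ((h.sub_const 1).const_mul 4).add (z.const_mul 4)
    rw [sub_self, mul_zero, add_zero] at this
    refine squeeze_zero (fun n => by positivity) (fun n => (ha n).2.1.trans ?_) this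
    rw [mul_one_div]
    linarith [low n]
  · intro h
    have hμ := (h.const_mul 2).add z
    rw [mul_zero, add_zero] at hμ
    refine tendsto_order.2 ⟨fun a h1 => Eventually.of_forall fun n => ?_, fun a h1 => ?_⟩
    · linarith [low n, (ha n).1]
    obtain ⟨η, η0, m₀, hU⟩ := hU ((a - 1) / 2) (by linarith)
    filter_upwards [hμ.eventually (ge_mem_nhds η0),
      hμ.eventually (ge_mem_nhds (show (0 : ℝ) < 1 / 2 ^ m₀ by positivity))] with n e1 e2
    have e3 := (ha n).2.2.1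
    have e4 : m₀ ≤ n - t n := (pow_le_pow_iff_right₀ one_lt_two).1
      ((one_div_le_one_div (by positivity) (by positivity)).1 (((ha n).2.2.2.trans e3).trans e2))
    refine lt_of_le_of_lt (b := 1 + (a - 1) / 2) ?_ (by linarith)
    rw [hρ, div_le_iff₀ (hd n), Nat.cast_sum]
    refine (sum_le_card_nsmul _ _ ((1 + (a - 1) / 2) * N0 (t n) ^ (n - t n)) fun T hT => ?_).trans
      (le_of_eq ?_)
    · have c := (mem_powersetCard.1 hT).2
      rw [← c]
      refine hU _ T _ ?_ (c ▸ e4) ?_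
      · rw [Fintype.card_fin, c, Nat.add_sub_cancel' (ht n)]
      · rw [c, ← div_le_iff₀ (by positivity)]
        exact e3.trans e1
    · rw [card_powersetCard, card_univ, Fintype.card_fin, nsmul_eq_mul]
      ring

end Fin

section Ib


theorem sIb : SIb := by
  obtain ⟨C, h0, h⟩ := r_bounded
  refine ⟨C, h0, fun t => ?_⟩
  have e : F (2 * t) = 2 ^ (t * t + 4 * t) := by
    rw [F, pw_nat]
    congr 1
    push_cast
    ring
  have := h (2 * t)
  rwa [r, div_le_iff₀ (F_pos _), e] at this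

end Ib

theorem main (t : ℕ → ℕ) (ht : ∀ n, t n ≤ n) :
    Filter.Tendsto (fun n : ℕ => (Nat.card {A : Matrix (Fin n) (Fin n) Bool //
      (∀ i j, A i j = Finset.univ.sup fun k => min (A i k) (A k j)) ∧
        (Finset.univ.filter fun i => A i i = true).card = t n} : ℝ) /
      (n.choose (t n) * (2 ^ (t n + 1) - 1) ^ (n - t n))) Filter.atTop (nhds 1) ↔
    Filter.Tendsto (fun n : ℕ => (t n : ℝ) * 4 ^ t n / 2 ^ n) Filter.atTop (nhds 0) := by
  have h : ∀ n s, _ := sCnt sBij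
  simp only [h]
  exact sFin (sUp (sRec (sPick sNN sTri) (sExt sNN (sDel sNN) sClu) sEq sDg (sCB sNN)
    (sGlob sBij sIb)) sNum) (sLow sDg) t ht

end Pool.Agent.MP_c00610_co.Tr
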